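import Mathlib
import Pool.Agent.R500.MG.Dense
import Pool.Agent.R500.MG.Few

set_option autoImplicit false

/-!
# Amplitudes in base `b` and a rounding function: blocks of zeros
-/

namespace Pool.Agent.R500.MH

open Filter Topology Set
open Pool.Agent.R500.MG (roughPart roughPart_mul roughPart_smooth roughPart_self_prime
  not_prime_rough)

/-- A rounding function: slightly above an integer `n` its value is `n`. -/
def Rnd (ρ : ℝ → ℕ) : Prop := ∀ (n : ℕ) (y : ℝ), (n : ℝ) < y → y < n + 1 / 2 → ρ y = n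

/-- The `p`-rough part of the rounded value of `β * b ^ p`. -/
noncomputable def W (ρ : ℝ → ℕ) (b : ℕ) (β : ℝ) (p : ℕ) : ℕ := roughPart p (ρ (β * (b : ℝ) ^ p))

/-- The number of primes `p ≤ n` for which `W ρ b β p` is prime. -/
noncomputable def M (ρ : ℝ → ℕ) (b : ℕ) (β : ℝ) (n : ℕ) : ℕ :=
  ((Finset.range (n + 1)).filter (fun p => p.Prime ∧ (W ρ b β p).Prime)).card

variable {ρ : ℝ → ℕ} {b : ℕ}

lemma rough_pow {p : ℕ} (hb0 : b ≠ 0) (hbp : b ≤ p) (i : ℕ) : roughPart p (b ^ i) = 1 :=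
  roughPart_smooth fun q hq hd => by
    have := Nat.le_of_dvd (Nat.pos_of_ne_zero hb0) (hq.dvd_of_dvd_pow hd)
    omega

/-- a block of zeros after the level `l` -/
lemma block (hρ : Rnd ρ) (hb : 2 ≤ b) {β : ℝ} {N l : ℕ} {δ : ℝ} (h1 : (N : ℝ) / (b : ℝ) ^ l < β)
    (h2 : β < N / (b : ℝ) ^ l + δ) {j : ℕ} (hj : l ≤ j) (hδ : δ * (b : ℝ) ^ j ≤ 1 / 2) :
    ρ (β * (b : ℝ) ^ j) = N * b ^ (j - l) := by
  have hb0 : (0 : ℝ) < b := by positivity
  have h2j : (0 : ℝ) < (b : ℝ) ^ j := by positivity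
  have e : (N : ℝ) / (b : ℝ) ^ l * (b : ℝ) ^ j = ((N * b ^ (j - l) : ℕ) : ℝ) := by
    have : (b : ℝ) ^ j = (b : ℝ) ^ l * (b : ℝ) ^ (j - l) := by rw [← pow_add]; congr 1; omega
    push_cast
    rw [this]
    field_simp
  refine hρ _ _ ?_ ?_
  · rw [← e]
    exact mul_lt_mul_of_pos_right h1 h2j
  · have : β * (b : ℝ) ^ j < (N / (b : ℝ) ^ l + δ) * (b : ℝ) ^ j := mul_lt_mul_of_pos_right h2 h2j
    rw [add_mul, e] at this
    linarith

lemma delta_le (hb : 2 ≤ b) {j n : ℕ} (h : j ≤ n) :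
    (1 : ℝ) / (b : ℝ) ^ (n + 1) * (b : ℝ) ^ j ≤ 1 / 2 := by
  have hb2 : (2 : ℝ) ≤ b := by exact_mod_cast hb
  have h1 : (b : ℝ) ^ j ≤ (b : ℝ) ^ n := pow_le_pow_right₀ (by linarith) h
  have h2 : (0 : ℝ) < (b : ℝ) ^ n := by positivity
  rw [one_div_mul_eq_div, div_le_div_iff₀ (by positivity) (by norm_num), pow_succ]
  nlinarith

/-- all primes in a block after a prime value are exponents -/
lemma block_prime (hρ : Rnd ρ) (hb : 2 ≤ b) {β : ℝ} {N l n : ℕ}
    (h1 : (N : ℝ) / (b : ℝ) ^ l < β) (h2 : β < N / (b : ℝ) ^ l + 1 / (b : ℝ) ^ (n + 1))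
    (hN : N.Prime) (hn : n < N) {p : ℕ} (hbp : b ≤ p) (hlp : l ≤ p) (hpn : p ≤ n) :
    (W ρ b β p).Prime := by
  unfold W
  rw [block hρ hb h1 h2 hlp (delta_le hb hpn), roughPart_mul p hN.ne_zero (by positivity),
    rough_pow (by omega) hbp, mul_one, roughPart_self_prime hN (by omega)]
  exact hN

lemma M_mono (β : ℝ) : Monotone (M ρ b β) := by
  intro m n hmn
  unfold M
  refine Finset.card_le_card (Finset.filter_subset_filter _ ?_)
  exact Finset.range_subset_range.2 (by omega)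

/-- if all primes in `(k, n]` are exponents then the count is at least `π(n) - π(k)` -/
lemma M_ge {β : ℝ} {k n : ℕ} (h : ∀ p : ℕ, p.Prime → k < p → p ≤ n → (W ρ b β p).Prime) :
    Nat.primeCounting n ≤ M ρ b β n + Nat.primeCounting k := by
  have e : ∀ m : ℕ, Nat.primeCounting m = ((Finset.range (m + 1)).filter Nat.Prime).card := by
    intro m
    rw [Nat.primeCounting, Nat.primeCounting', Nat.count_eq_card_filter_range]
  rw [e n, e k]
  unfold M
  have hsub : (Finset.range (n + 1)).filter Nat.Prime ⊆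
      ((Finset.range (n + 1)).filter (fun p => p.Prime ∧ (W ρ b β p).Prime)) ∪
        (Finset.range (k + 1)).filter Nat.Prime := by
    intro p hp
    simp only [Finset.mem_filter, Finset.mem_range, Finset.mem_union] at hp ⊢
    by_cases hk : k < p
    · exact Or.inl ⟨hp.1, hp.2, h p hp.2 hk (by omega)⟩
    · exact Or.inr ⟨by omega, hp.2⟩
  exact (Finset.card_le_card hsub).trans (Finset.card_union_le _ _)

lemma M_succ (β : ℝ) (n : ℕ) : M ρ b β (n + 1) ≤ M ρ b β n + 1 := by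
  unfold M
  rw [Finset.range_add_one (n := n + 1), Finset.filter_insert]
  split_ifs
  · exact Finset.card_insert_le _ _
  · omega

lemma val_step {t t' N : ℕ} (hb : 2 ≤ b) (h : t ≤ t') :
    ((N * b ^ (t' - t) : ℕ) : ℝ) / (b : ℝ) ^ t' = N / (b : ℝ) ^ t := by
  have hb0 : (0 : ℝ) < b := by positivity
  have : (b : ℝ) ^ t' = (b : ℝ) ^ t * (b : ℝ) ^ (t' - t) := by rw [← pow_add]; congr 1; omega
  push_cast
  rw [this]
  field_simp

/-- the limit of nested cells -/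
theorem limit (hb : 2 ≤ b) (t x N : ℕ → ℕ) (hx1 : ∀ k, t k ≤ x k) (hx2 : ∀ k, x k + 1 ≤ t (k + 1))
    (hx5 : ∀ k, N k * b ^ (t (k + 1) - t k) < N (k + 1))
    (hx6 : ∀ k, N (k + 1) + 1 ≤ N k * b ^ (t (k + 1) - t k) + b ^ (t (k + 1) - (x k + 1))) :
    ∃ β : ℝ, ∀ k, (N k : ℝ) / (b : ℝ) ^ t k < β ∧
      β < N k / (b : ℝ) ^ t k + 1 / (b : ℝ) ^ (x k + 1) := by
  have hb2 : (2 : ℝ) ≤ b := by exact_mod_cast hb
  have hb0 : (0 : ℝ) < b := by linarith
  have hpos : ∀ k : ℕ, (0 : ℝ) < (b : ℝ) ^ k := fun k => by positivity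
  set a : ℕ → ℝ := fun k => (N k : ℝ) / (b : ℝ) ^ t k with ha
  have htlt : ∀ k, t k < t (k + 1) := fun k => by
    have := hx1 k
    have := hx2 k
    omega
  have haa : ∀ k, a k < a (k + 1) := by
    intro k
    have h1 : ((N k * b ^ (t (k + 1) - t k) : ℕ) : ℝ) < N (k + 1) := by exact_mod_cast hx5 k
    have h2 := div_lt_div_of_pos_right h1 (hpos (t (k + 1)))
    rwa [val_step hb (htlt k).le] at h2
  have hab : ∀ k, a (k + 1) + 1 / (b : ℝ) ^ t (k + 1) ≤ a k + 1 / (b : ℝ) ^ (x k + 1) := by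
    intro k
    have h1 : ((N (k + 1) + 1 : ℕ) : ℝ) ≤
        ((N k * b ^ (t (k + 1) - t k) : ℕ) : ℝ) + ((1 * b ^ (t (k + 1) - (x k + 1)) : ℕ) : ℝ) := by
      have := hx6 k
      have h2 : N (k + 1) + 1 ≤ N k * b ^ (t (k + 1) - t k) + 1 * b ^ (t (k + 1) - (x k + 1)) := by
        rw [one_mul]; exact this
      exact_mod_cast h2
    have h2 := div_le_div_of_nonneg_right h1 (hpos (t (k + 1))).le
    rw [add_div, val_step hb (htlt k).le, val_step hb (hx2 k)] at h2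
    have e : ((N (k + 1) + 1 : ℕ) : ℝ) / (b : ℝ) ^ t (k + 1) =
        a (k + 1) + 1 / (b : ℝ) ^ t (k + 1) := by
      push_cast
      rw [add_div]
    rw [e] at h2
    simpa using h2
  have hxt : ∀ k, (1 : ℝ) / (b : ℝ) ^ (x k + 1) < 1 / (b : ℝ) ^ t k := by
    intro k
    refine one_div_lt_one_div_of_lt (hpos _) (pow_lt_pow_right₀ (by linarith) ?_)
    have := hx1 k
    omega
  have ham : StrictMono a := strictMono_nat_of_lt_succ haa
  have hbm : Antitone (fun k => a k + 1 / (b : ℝ) ^ t k) := antitone_nat_of_succ_le fun k => by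
    have := hab k
    have := hxt k
    linarith
  have hup : ∀ k m, a m ≤ a k + 1 / (b : ℝ) ^ t k := by
    intro k m
    rcases le_total m k with hmk | hmk
    · have h1 := ham.monotone hmk
      have h2 : (0 : ℝ) < 1 / (b : ℝ) ^ t k := by positivity
      linarith
    · have h1 := hbm hmk
      have h2 : (0 : ℝ) < 1 / (b : ℝ) ^ t m := by positivity
      simp only at h1
      linarith
  have hbdd : BddAbove (range a) := ⟨a 0 + 1 / (b : ℝ) ^ t 0, by
    rintro _ ⟨m, rfl⟩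
    exact hup 0 m⟩
  have hle : ∀ k, (⨆ k, a k) ≤ a k + 1 / (b : ℝ) ^ (x k + 1) := fun k => by
    have h1 : (⨆ k, a k) ≤ a (k + 1) + 1 / (b : ℝ) ^ t (k + 1) := ciSup_le fun m => hup (k + 1) m
    exact h1.trans (hab k)
  refine ⟨⨆ k, a k, fun k => ⟨lt_of_lt_of_le (haa k) (le_ciSup hbdd (k + 1)), ?_⟩⟩
  have h1 := hle (k + 1)
  have h2 := hxt (k + 1)
  have h3 := hab k
  simp only [ha] at h1 h2 h3 ⊢
  linarith

end Pool.Agent.R500.MH
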