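import Mathlib
import Pool.Agent.R500.MH.Base
import Pool.Agent.H469R10.HO.Stmts

set_option autoImplicit false

/-!
# The construction in base `b`: primes in short intervals, and a map with Hölder inverse
-/

namespace Pool.Agent.R500.MH

open Filter Topology Set
open Pool.Agent.R500.MG (child child_prime child_gt child_add child_le)

/-- many primes in the next cell -/
lemma many (hH : Pool.Agent.H469R10.HO.Hoheisel) {b : ℕ} (hb : 2 ≤ b) :
    ∃ (J0 : ℕ) (η : ℝ), 0 < η ∧ ∀ B : ℕ, ∃ T0 : ℕ, ∀ t x t' N : ℕ, T0 ≤ t → t ≤ x → J0 * x ≤ t' →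
      1 ≤ N → N + 1 ≤ B * b ^ t →
      x + 1 < t' ∧ η * (b : ℝ) ^ (t' - x) / t' ≤
        (((Finset.Ioc (N * b ^ (t' - t))
          (N * b ^ (t' - t) + (b ^ (t' - (x + 1)) - 1))).filter Nat.Prime).card : ℝ) := by
  obtain ⟨δ, η, hδ, hδ1, hη, X₀, hX₀, hh⟩ := hH
  have hb2 : (2 : ℝ) ≤ b := by exact_mod_cast hb
  have hb0 : (0 : ℝ) < b := by linarith
  have hlb : 0 < Real.log b := Real.log_pos (by linarith)
  refine ⟨⌈3 / δ⌉₊ + 1, η / (2 * b * (Real.log b + 1)), by positivity, fun B => ?_⟩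
  refine ⟨max X₀ (2 * b * B + 1), fun t x t' N ht htx hxt hN hNB => ?_⟩
  have ht1 : X₀ ≤ t := (le_max_left _ _).trans ht
  have ht2 : 2 * b * B + 1 ≤ t := (le_max_right _ _).trans ht
  have hx0 : 1 ≤ x := by omega
  have h3δ : (3 : ℝ) ≤ δ * ⌈3 / δ⌉₊ := by
    have h1 : 3 / δ ≤ ⌈3 / δ⌉₊ := Nat.le_ceil _
    rw [div_le_iff₀ hδ] at h1
    linarith
  have hJ3 : 3 < ⌈3 / δ⌉₊ := by
    have h1 : (3 : ℝ) < ⌈3 / δ⌉₊ := by nlinarith [show (0 : ℝ) ≤ ⌈3 / δ⌉₊ from Nat.cast_nonneg _]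
    exact_mod_cast h1
  have hxt4 : 4 * x ≤ t' := by
    refine le_trans (Nat.mul_le_mul_right x ?_) hxt
    omega
  have hx1 : x + 1 < t' := by omega
  refine ⟨hx1, ?_⟩
  set X := N * b ^ (t' - t) with hX
  set Y := b ^ (t' - (x + 1)) - 1 with hY
  have hXb : b ^ (t' - t) ≤ X := Nat.le_mul_of_pos_left _ hN
  have hX2 : X ≤ B * b ^ t' := by
    have e : b ^ t' = b ^ t * b ^ (t' - t) := by rw [← pow_add]; congr 1; omega
    rw [e, ← mul_assoc, hX]
    exact Nat.mul_le_mul_right _ (by omega)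
  have hlt2 : ∀ m : ℕ, m < b ^ m := fun m =>
    lt_of_lt_of_le Nat.lt_two_pow_self (Nat.pow_le_pow_left hb m)
  have hXX : X₀ ≤ X := by
    have h3 := hlt2 (t' - t)
    omega
  have hpow1 : b ^ (t' - (x + 1)) = b * b ^ (t' - (x + 1) - 1) := by
    rw [← pow_succ', Nat.sub_add_cancel (by omega)]
  have hY1 : b ^ (t' - (x + 1)) ≤ 2 * Y := by
    have h5 : 1 ≤ b ^ (t' - (x + 1) - 1) := Nat.one_le_pow _ _ (by omega)
    have h6 : 2 * b ^ (t' - (x + 1) - 1) ≤ b ^ (t' - (x + 1)) := by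
      rw [hpow1]; exact Nat.mul_le_mul_right _ hb
    omega
  have hYX : Y ≤ X := by
    have h3 : b ^ (t' - (x + 1)) ≤ b ^ (t' - t) := Nat.pow_le_pow_right (by omega) (by omega)
    omega
  have hX0 : (0 : ℝ) < X := by
    have : 0 < X := by omega
    exact_mod_cast this
  have hXr : ((b : ℝ) ^ (t' - t)) ≤ X := by exact_mod_cast hXb
  have hXδ : (b : ℝ) ^ (3 * x) ≤ (X : ℝ) ^ δ := by
    calc (b : ℝ) ^ (3 * x) = (b : ℝ) ^ (((3 * x : ℕ)) : ℝ) := (Real.rpow_natCast _ _).symm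
      _ ≤ (b : ℝ) ^ (((t' - t : ℕ) : ℝ) * δ) := by
          refine Real.rpow_le_rpow_of_exponent_le (by linarith) ?_
          have h6 : ⌈3 / δ⌉₊ * x ≤ t' - t := by
            have : (⌈3 / δ⌉₊ + 1) * x = ⌈3 / δ⌉₊ * x + x := by ring
            omega
          have h7 : (⌈3 / δ⌉₊ : ℝ) * x ≤ ((t' - t : ℕ) : ℝ) := by exact_mod_cast h6
          have h8 := mul_le_mul_of_nonneg_right h7 hδ.le
          have h9 := mul_le_mul_of_nonneg_right h3δ (show (0 : ℝ) ≤ x from Nat.cast_nonneg x)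
          push_cast
          linarith
      _ = ((b : ℝ) ^ (t' - t)) ^ δ := by
          rw [Real.rpow_mul hb0.le, Real.rpow_natCast]
      _ ≤ (X : ℝ) ^ δ := Real.rpow_le_rpow (by positivity) hXr hδ.le
  have hmain : (X : ℝ) ^ (1 - δ) ≤ Y := by
    rw [Real.rpow_sub hX0, Real.rpow_one, div_le_iff₀ (Real.rpow_pos_of_pos hX0 _)]
    have h7 : X ≤ Y * b ^ (3 * x) := by
      have h8 : 2 * b * B ≤ b ^ x := by
        have := hlt2 x
        omega
      have h9 : 2 * X ≤ 2 * Y * b ^ (3 * x) := by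
        calc 2 * X ≤ 2 * (B * b ^ t') := by omega
          _ ≤ 2 * (B * (b * b ^ (t' - (x + 1)) * b ^ x)) := by
              have : b * b ^ (t' - (x + 1)) * b ^ x = b ^ t' := by
                rw [← pow_succ', ← pow_add]; congr 1; omega
              rw [this]
          _ = (2 * b * B) * (b ^ (t' - (x + 1)) * b ^ x) := by ring
          _ ≤ b ^ x * (b ^ (t' - (x + 1)) * b ^ x) := Nat.mul_le_mul_right _ h8
          _ = b ^ (t' - (x + 1)) * b ^ (2 * x) := by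
              rw [two_mul, pow_add]; ring
          _ ≤ (2 * Y) * b ^ (3 * x) :=
              Nat.mul_le_mul hY1 (Nat.pow_le_pow_right (by omega) (by omega))
      have h10 : 2 * X ≤ 2 * (Y * b ^ (3 * x)) := h9.trans (le_of_eq (by ring))
      omega
    have h8 : (X : ℝ) ≤ Y * (b : ℝ) ^ (3 * x) := by exact_mod_cast h7
    exact h8.trans (mul_le_mul_of_nonneg_left hXδ (Nat.cast_nonneg _))
  have h9 := hh X Y hXX hmain hYX
  refine le_trans ?_ h9
  have ht'0 : (0 : ℝ) < t' := by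
    have : 0 < t' := by omega
    exact_mod_cast this
  have hlog : Real.log X ≤ (Real.log b + 1) * t' := by
    have h10 : X ≤ b ^ t' * 2 ^ t' := by
      have h11 : B ≤ 2 ^ t' := by
        have h12 : t' < 2 ^ t' := Nat.lt_two_pow_self
        nlinarith
      rw [mul_comm]
      exact hX2.trans (Nat.mul_le_mul_right _ h11)
    have h11 : (X : ℝ) ≤ (b : ℝ) ^ t' * 2 ^ t' := by exact_mod_cast h10
    have h12 := Real.log_le_log hX0 h11
    rw [Real.log_mul (by positivity) (by positivity), Real.log_pow, Real.log_pow] at h12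
    have h13 := Real.log_two_lt_d9
    nlinarith
  have hlog0 : 0 < Real.log X := by
    refine Real.log_pos ?_
    have : 1 < X := by omega
    exact_mod_cast this
  have hY2 : (b : ℝ) ^ (t' - x) ≤ 2 * b * Y := by
    have e : b ^ (t' - x) = b * b ^ (t' - (x + 1)) := by
      rw [← pow_succ']; congr 1; omega
    have : b ^ (t' - x) ≤ b * (2 * Y) := by
      rw [e]; exact Nat.mul_le_mul_left _ hY1
    have h14 : ((b ^ (t' - x) : ℕ) : ℝ) ≤ ((b * (2 * Y) : ℕ) : ℝ) := by exact_mod_cast this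
    push_cast at h14
    linarith
  rw [div_le_div_iff₀ ht'0 hlog0]
  have h15 : (0 : ℝ) < 2 * b * (Real.log b + 1) := by positivity
  rw [div_mul_eq_mul_div, div_mul_eq_mul_div, div_le_iff₀ h15]
  have hYr : (0 : ℝ) ≤ Y := Nat.cast_nonneg _
  calc η * (b : ℝ) ^ (t' - x) * Real.log X
      ≤ η * (2 * b * Y) * ((Real.log b + 1) * t') := by gcongr
    _ = η * Y * t' * (2 * b * (Real.log b + 1)) := by ring

/-! ### the map with Hölder inverse -/

/-- the number of digits used -/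
def AA (a : ℕ → ℕ) (k : ℕ) : ℕ := ∑ j ∈ Finset.range k, a j

/-- the digits of the parameter -/
noncomputable def idx (a : ℕ → ℕ) (y : ℝ) (k : ℕ) : ℕ := ⌊y * 2 ^ (AA a k)⌋₊

/-- the values -/
noncomputable def Nn (b : ℕ) (t a : ℕ → ℕ) (N0 : ℕ) (y : ℝ) : ℕ → ℕ
  | 0 => N0
  | k + 1 => child (Nn b t a N0 y k * b ^ (t (k + 1) - t k))
      (idx a y (k + 1) - 2 ^ (a k) * idx a y k)

lemma AA_succ (a : ℕ → ℕ) (k : ℕ) : AA a (k + 1) = AA a k + a k := by
  unfold AA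
  rw [Finset.sum_range_succ]

lemma idx_le (a : ℕ → ℕ) {y : ℝ} (hy : 0 ≤ y) (k : ℕ) :
    2 ^ (a k) * idx a y k ≤ idx a y (k + 1) := by
  unfold idx
  refine Nat.le_floor ?_
  rw [AA_succ, pow_add]
  push_cast
  have h1 : (⌊y * 2 ^ AA a k⌋₊ : ℝ) ≤ y * 2 ^ AA a k := Nat.floor_le (by positivity)
  have h2 := mul_le_mul_of_nonneg_left h1 (show (0 : ℝ) ≤ 2 ^ a k by positivity)
  calc _ ≤ (2 : ℝ) ^ a k * (y * 2 ^ AA a k) := h2
    _ = _ := by ring

lemma idx_lt (a : ℕ → ℕ) {y : ℝ} (hy : 0 ≤ y) (k : ℕ) :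
    idx a y (k + 1) < 2 ^ (a k) * (idx a y k + 1) := by
  unfold idx
  rw [Nat.floor_lt (by positivity), AA_succ, pow_add]
  push_cast
  have h1 : y * 2 ^ AA a k < (⌊y * 2 ^ AA a k⌋₊ : ℝ) + 1 := Nat.lt_floor_add_one _
  have h2 := mul_lt_mul_of_pos_left h1 (show (0 : ℝ) < 2 ^ a k by positivity)
  calc _ = (2 : ℝ) ^ a k * (y * 2 ^ AA a k) := by ring
    _ < _ := h2

lemma dig_lt (a : ℕ → ℕ) {y : ℝ} (hy : 0 ≤ y) (k : ℕ) :
    idx a y (k + 1) - 2 ^ (a k) * idx a y k < 2 ^ (a k) := by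
  have h1 := idx_lt a hy k
  have h2 := idx_le a hy k
  rw [mul_add, mul_one] at h1
  omega

lemma Nn_congr {b : ℕ} {t a : ℕ → ℕ} {N0 : ℕ} {y y' : ℝ} {k : ℕ}
    (h : ∀ j ≤ k, idx a y j = idx a y' j) : Nn b t a N0 y k = Nn b t a N0 y' k := by
  induction k with
  | zero => rfl
  | succ k ih =>
    unfold Nn
    rw [ih fun j hj => h j (by omega), h k (by omega), h (k + 1) le_rfl]

/-- the map with Hölder inverse -/
theorem main {b : ℕ} (hb : 2 ≤ b) (t x a : ℕ → ℕ) (N0 : ℕ) (Good : ℕ → ℕ → Prop)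
    (hG0 : Good 0 N0)
    (hstep : ∀ k N, Good k N → ∀ i < 2 ^ (a k), Good (k + 1) (child (N * b ^ (t (k + 1) - t k)) i) ∧
      child (N * b ^ (t (k + 1) - t k)) i + 1 ≤
        N * b ^ (t (k + 1) - t k) + b ^ (t (k + 1) - (x k + 1)))
    (htx : ∀ k, t k ≤ x k) (hxt : ∀ k, x k + 1 ≤ t (k + 1)) (ha : ∀ k, 1 ≤ a k)
    {s c : ℝ} (hs : 0 < s) (hs1 : s < 1)
    (hexpo : ∀ k, 1 + s + s * (t (k + 1) * Real.logb 2 b - a k) ≤ AA a k + c) :
    ∃ g : ℝ → ℝ, (∀ y ∈ Set.Ico (0 : ℝ) 1, ∃ N : ℕ → ℕ, N 0 = N0 ∧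
      ∀ k, Good k (N k) ∧ (N k : ℝ) / (b : ℝ) ^ (t k) < g y ∧
        g y < N k / (b : ℝ) ^ (t k) + 1 / (b : ℝ) ^ (x k + 1)) ∧
      ∀ y ∈ Set.Ico (0 : ℝ) 1, ∀ y' ∈ Set.Ico (0 : ℝ) 1, y < y' →
        y' - y ≤ (2 : ℝ) ^ c * |g y' - g y| ^ s := by
  classical
  have hb2 : (2 : ℝ) ≤ b := by exact_mod_cast hb
  have hb0 : (0 : ℝ) < b := by linarith
  have hgood : ∀ y : ℝ, 0 ≤ y → ∀ k, Good k (Nn b t a N0 y k) := by
    intro y hy k
    induction k with
    | zero => exact hG0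
    | succ k ih =>
      unfold Nn
      exact (hstep k _ ih _ (dig_lt a hy k)).1
  have hex : ∀ y : ℝ, ∃ β : ℝ, 0 ≤ y → ∀ k,
      (Nn b t a N0 y k : ℝ) / (b : ℝ) ^ (t k) < β ∧
      β < Nn b t a N0 y k / (b : ℝ) ^ (t k) + 1 / (b : ℝ) ^ (x k + 1) := by
    intro y
    by_cases hy : 0 ≤ y
    · obtain ⟨β, hβ⟩ := limit hb t x (Nn b t a N0 y) htx hxt (fun k => child_gt _ _)
        (fun k => (hstep k _ (hgood y hy k) _ (dig_lt a hy k)).2)
      exact ⟨β, fun _ => hβ⟩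
    · exact ⟨0, fun h => absurd h hy⟩
  choose g hg using hex
  refine ⟨g, fun y hy => ⟨Nn b t a N0 y, rfl, fun k =>
    ⟨hgood y hy.1 k, hg y hy.1 k⟩⟩, fun y hy y' hy' hlt => ?_⟩
  have hAge : ∀ k, k ≤ AA a k := by
    intro k
    induction k with
    | zero => omega
    | succ k ih =>
      rw [AA_succ]
      have := ha k
      omega
  have hidx : ∃ k, idx a y k ≠ idx a y' k := by
    have h1 : Tendsto (fun k : ℕ => (1 / 2 : ℝ) ^ k) atTop (𝓝 0) :=
      tendsto_pow_atTop_nhds_zero_of_lt_one (by norm_num) (by norm_num)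
    obtain ⟨k, hk⟩ := (h1.eventually_lt_const (show (0 : ℝ) < y' - y by linarith)).exists
    refine ⟨k, fun he => ?_⟩
    unfold idx at he
    have h2 : (⌊y * 2 ^ AA a k⌋₊ : ℝ) ≤ y * 2 ^ AA a k :=
      Nat.floor_le (by have := hy.1; positivity)
    have h3 : y' * 2 ^ AA a k < (⌊y' * 2 ^ AA a k⌋₊ : ℝ) + 1 := Nat.lt_floor_add_one _
    rw [← he] at h3
    have h4 : (y' - y) * 2 ^ AA a k < 1 := by linarith
    have h5 : (2 : ℝ) ^ k ≤ 2 ^ AA a k := pow_le_pow_right₀ (by norm_num) (hAge k)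
    have h6 : (1 : ℝ) < (y' - y) * 2 ^ k := by
      have h7 : (1 / 2 : ℝ) ^ k * 2 ^ k = 1 := by rw [← mul_pow]; norm_num
      rw [← h7]
      exact mul_lt_mul_of_pos_right hk (by positivity)
    have h7 : (y' - y) * 2 ^ k ≤ (y' - y) * 2 ^ AA a k :=
      mul_le_mul_of_nonneg_left h5 (by linarith)
    linarith
  set K := Nat.find hidx with hK
  have hK1 := Nat.find_spec hidx
  rw [← hK] at hK1
  have hK0 : K ≠ 0 := by
    intro h0
    rw [h0] at hK1
    apply hK1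
    have e : ∀ z ∈ Set.Ico (0 : ℝ) 1, idx a z 0 = 0 := by
      intro z hz
      have : AA a 0 = 0 := by simp [AA]
      unfold idx
      rw [this, pow_zero, mul_one]
      exact Nat.floor_eq_zero.2 hz.2
    rw [e y hy, e y' hy']
  obtain ⟨k, hk⟩ : ∃ k, K = k + 1 := ⟨K - 1, by omega⟩
  have hlow : ∀ j ≤ k, idx a y j = idx a y' j := by
    intro j hj
    have := Nat.find_min hidx (m := j) (by omega)
    push Not at this
    exact this
  have hNk := Nn_congr (b := b) (t := t) (N0 := N0) hlow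
  rw [hk] at hK1
  have hmono : idx a y (k + 1) ≤ idx a y' (k + 1) := by
    unfold idx
    exact Nat.floor_le_floor (mul_le_mul_of_nonneg_right hlt.le (by positivity))
  have hlt' : idx a y (k + 1) < idx a y' (k + 1) := lt_of_le_of_ne hmono hK1
  have hle := idx_le a hy.1 k
  have hlt2 := dig_lt a hy'.1 k
  set D := idx a y' (k + 1) - idx a y (k + 1) with hD
  have hD1 : 1 ≤ D := by omega
  have hkk := hlow k le_rfl
  have hD2 : D ≤ 2 ^ a k := by
    rw [hkk] at hle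
    omega
  -- the values
  have hNN : Nn b t a N0 y (k + 1) + D ≤ Nn b t a N0 y' (k + 1) := by
    have e1 : Nn b t a N0 y (k + 1) = child (Nn b t a N0 y k * b ^ (t (k + 1) - t k))
      (idx a y (k + 1) - 2 ^ (a k) * idx a y k) := rfl
    have e2 : Nn b t a N0 y' (k + 1) = child (Nn b t a N0 y' k * b ^ (t (k + 1) - t k))
      (idx a y' (k + 1) - 2 ^ (a k) * idx a y' k) := rfl
    rw [e1, e2, ← hNk, ← hkk]
    have h1 := child_add (Nn b t a N0 y k * b ^ (t (k + 1) - t k))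
      (i := idx a y (k + 1) - 2 ^ (a k) * idx a y k)
      (j := idx a y' (k + 1) - 2 ^ (a k) * idx a y k) (by omega)
    have h2 : idx a y' (k + 1) - 2 ^ (a k) * idx a y k -
      (idx a y (k + 1) - 2 ^ (a k) * idx a y k) = D := by omega
    rw [h2] at h1
    exact h1
  set T := t (k + 1) with hT
  have hpos : (0 : ℝ) < (b : ℝ) ^ T := by positivity
  have hg1 := (hg y hy.1 (k + 1)).2
  have hg2 := (hg y' hy'.1 (k + 1)).1
  have hNNr : (Nn b t a N0 y (k + 1) : ℝ) + D ≤ Nn b t a N0 y' (k + 1) := by exact_mod_cast hNN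
  have hDr : (1 : ℝ) ≤ D := by exact_mod_cast hD1
  have hβ : (D : ℝ) / (2 * (b : ℝ) ^ T) ≤ g y' - g y := by
    have h1 : ((Nn b t a N0 y (k + 1) : ℝ) + D) / (b : ℝ) ^ T ≤
        Nn b t a N0 y' (k + 1) / (b : ℝ) ^ T :=
      div_le_div_of_nonneg_right hNNr hpos.le
    rw [add_div] at h1
    have h2 : (1 : ℝ) / (b : ℝ) ^ (x (k + 1) + 1) ≤ 1 / (2 * (b : ℝ) ^ T) := by
      refine one_div_le_one_div_of_le (by positivity) ?_
      have h5 : T ≤ x (k + 1) := htx (k + 1)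
      calc 2 * (b : ℝ) ^ T ≤ b * (b : ℝ) ^ T := mul_le_mul_of_nonneg_right hb2 hpos.le
        _ = (b : ℝ) ^ (T + 1) := by rw [pow_succ]; ring
        _ ≤ (b : ℝ) ^ (x (k + 1) + 1) := pow_le_pow_right₀ (by linarith) (by omega)
    have h3 : (1 : ℝ) / (2 * (b : ℝ) ^ T) ≤ D / (2 * (b : ℝ) ^ T) :=
      div_le_div_of_nonneg_right hDr (by positivity)
    have h4 : (D : ℝ) / (b : ℝ) ^ T = 2 * (D / (2 * (b : ℝ) ^ T)) := by
      field_simp
    linarith
  have hgpos : 0 < g y' - g y := lt_of_lt_of_le (by positivity) hβ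
  -- the parameters
  have hyy : y' - y ≤ 2 * D / 2 ^ AA a (k + 1) := by
    rw [le_div_iff₀ (by positivity)]
    have h2 : (idx a y (k + 1) : ℝ) ≤ y * 2 ^ AA a (k + 1) :=
      Nat.floor_le (by have := hy.1; positivity)
    have h3 : y' * 2 ^ AA a (k + 1) < (idx a y' (k + 1) : ℝ) + 1 :=
      Nat.lt_floor_add_one _
    have h4 : (D : ℝ) = idx a y' (k + 1) - idx a y (k + 1) := by
      rw [hD, Nat.cast_sub hmono]
    linarith
  rw [abs_of_pos hgpos]
  have hbase : ((D : ℝ) / (2 * (b : ℝ) ^ T)) ^ s ≤ (g y' - g y) ^ s :=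
    Real.rpow_le_rpow (by positivity) hβ hs.le
  have hC0 : (0 : ℝ) < (2 : ℝ) ^ c := by positivity
  refine le_trans ?_ (mul_le_mul_of_nonneg_left hbase hC0.le)
  refine hyy.trans ?_
  have hbT : 2 * (b : ℝ) ^ T = (2 : ℝ) ^ (1 + T * Real.logb 2 b) := by
    rw [Real.rpow_add (by norm_num), Real.rpow_one, mul_comm (T : ℝ),
      Real.rpow_mul (by norm_num), Real.rpow_logb (by norm_num) (by norm_num) hb0,
      Real.rpow_natCast]
  rw [hbT, Real.div_rpow (by positivity) (by positivity),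
    ← Real.rpow_mul (by norm_num), ← Real.rpow_natCast 2 (AA a (k + 1))]
  rw [div_le_iff₀ (by positivity), mul_assoc, div_mul_eq_mul_div, mul_div_assoc',
    le_div_iff₀ (by positivity)]
  have hD3 : (D : ℝ) ^ (1 - s) ≤ (2 : ℝ) ^ ((a k : ℝ) * (1 - s)) := by
    have h1 : (D : ℝ) ≤ (2 : ℝ) ^ (a k : ℝ) := by
      rw [Real.rpow_natCast]
      exact_mod_cast hD2
    calc (D : ℝ) ^ (1 - s) ≤ ((2 : ℝ) ^ (a k : ℝ)) ^ (1 - s) :=
          Real.rpow_le_rpow (by positivity) h1 (by linarith)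
      _ = _ := by rw [← Real.rpow_mul (by norm_num)]
  have hDs : (D : ℝ) = (D : ℝ) ^ (1 - s) * (D : ℝ) ^ s := by
    rw [← Real.rpow_add (by linarith)]
    simp
  have hexpo' := hexpo k
  have hAe : (AA a (k + 1) : ℝ) = AA a k + a k := by
    rw [AA_succ]; push_cast; ring
  have hfin : (2 : ℝ) * 2 ^ ((a k : ℝ) * (1 - s)) * 2 ^ ((1 + T * Real.logb 2 b) * s) ≤
      (2 : ℝ) ^ c * 2 ^ (AA a (k + 1) : ℝ) := by
    nth_rewrite 1 [← Real.rpow_one 2]
    rw [← Real.rpow_add (by norm_num), ← Real.rpow_add (by norm_num),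
      ← Real.rpow_add (by norm_num)]
    refine Real.rpow_le_rpow_of_exponent_le (by norm_num) ?_
    rw [hAe]
    have e : 1 + (a k : ℝ) * (1 - s) + (1 + T * Real.logb 2 b) * s =
        1 + s + s * (T * Real.logb 2 b - a k) + a k := by ring
    rw [e]
    linarith
  have hDs0 : (0 : ℝ) < (D : ℝ) ^ s := by positivity
  have hT0 : (0 : ℝ) < (2 : ℝ) ^ ((1 + T * Real.logb 2 b) * s) := by positivity
  calc 2 * (D : ℝ) * 2 ^ ((1 + T * Real.logb 2 b) * s)
      = (2 * (D : ℝ) ^ (1 - s) * 2 ^ ((1 + T * Real.logb 2 b) * s)) * (D : ℝ) ^ s := by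
        nth_rewrite 1 [hDs]
        ring
    _ ≤ (2 * (2 : ℝ) ^ ((a k : ℝ) * (1 - s)) * 2 ^ ((1 + T * Real.logb 2 b) * s)) * (D : ℝ) ^ s := by
        refine mul_le_mul_of_nonneg_right (mul_le_mul_of_nonneg_right ?_ hT0.le) hDs0.le
        linarith
    _ ≤ ((2 : ℝ) ^ c * 2 ^ (AA a (k + 1) : ℝ)) * (D : ℝ) ^ s :=
        mul_le_mul_of_nonneg_right hfin hDs0.le
    _ = _ := by ring

end Pool.Agent.R500.MH
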