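import Mathlib
import Pool.Agent.R500.MH.Dense
import Pool.Agent.H295R3.Hoheisel

set_option autoImplicit false

/-!
# Exponents with positive lower density and large upper density: the Hausdorff dimension
-/

namespace Pool.Agent.R500.MH

open Filter Topology Set
open Pool.Agent.R500.MG (child child_prime child_gt child_add child_le dimH_ge pi_ratio exists_prime)

/-- the scales -/
noncomputable def TT (J t0 : ℕ) (t : ℝ) : ℕ → ℕ
  | 0 => t0
  | k + 1 => J * ⌊(TT J t0 t k : ℝ) / t⌋₊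

/-- the ends of the blocks -/
noncomputable def XX (J t0 : ℕ) (t : ℝ) (k : ℕ) : ℕ := ⌊(TT J t0 t k : ℝ) / t⌋₊

lemma TT_succ (J t0 : ℕ) (t : ℝ) (k : ℕ) : TT J t0 t (k + 1) = J * XX J t0 t k := rfl

section
variable {J t0 : ℕ} {t : ℝ} (ht0 : 0 < t) (ht1 : t < 1)

include ht0 ht1 in
lemma TT_le_XX (k : ℕ) : TT J t0 t k ≤ XX J t0 t k := by
  unfold XX
  refine Nat.le_floor ?_
  rw [le_div_iff₀ ht0]
  have : (0 : ℝ) ≤ TT J t0 t k := Nat.cast_nonneg _
  nlinarith

include ht0 in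
lemma XX_le (k : ℕ) : (XX J t0 t k : ℝ) ≤ TT J t0 t k / t := Nat.floor_le (by positivity)

include ht0 in
lemma lt_XX (k : ℕ) : (TT J t0 t k : ℝ) < t * (XX J t0 t k + 1) := by
  have := Nat.lt_floor_add_one ((TT J t0 t k : ℝ) / t)
  rw [div_lt_iff₀ ht0] at this
  unfold XX
  linarith

include ht0 ht1 in
lemma TT_ge (hJ : 1 ≤ J) (k : ℕ) : t0 ≤ TT J t0 t k := by
  induction k with
  | zero => exact le_rfl
  | succ k ih =>
    rw [TT_succ]
    have h1 := TT_le_XX (J := J) (t0 := t0) ht0 ht1 k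
    calc t0 ≤ XX J t0 t k := ih.trans h1
      _ = 1 * XX J t0 t k := (one_mul _).symm
      _ ≤ J * XX J t0 t k := Nat.mul_le_mul_right _ hJ

end

variable {ρ : ℝ → ℕ} {b : ℕ}

/-- the count of the exponents -/
lemma density (hρ : Rnd ρ) (hb : 2 ≤ b) {J t0 : ℕ} {t : ℝ} (ht0 : 0 < t) (ht1 : t < 1) (hJ : 2 ≤ J)
    (hbt : b ≤ t0) {β : ℝ} {N : ℕ → ℕ}
    (hN : ∀ k, (N k).Prime ∧ XX J t0 t k < N k ∧
      (N k : ℝ) / (b : ℝ) ^ (TT J t0 t k) < β ∧
        β < N k / (b : ℝ) ^ (TT J t0 t k) + 1 / (b : ℝ) ^ (XX J t0 t k + 1)) :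
    (∀ᶠ n : ℕ in atTop, (1 - t) / (4 * (J / t + 1)) * Nat.primeCounting n ≤ M ρ b β n) ∧
    (∀ ε : ℝ, 0 < ε → ∃ᶠ n : ℕ in atTop, (1 - t - ε) * Nat.primeCounting n < M ρ b β n) := by
  set X := XX J t0 t with hX
  set T := TT J t0 t with hT
  have hJ1 : 1 ≤ J := by omega
  have hTX : ∀ k, T k ≤ X k := TT_le_XX ht0 ht1
  have hX1 : ∀ k, 1 ≤ X k := fun k => by
    have h1 := TT_ge (J := J) (t0 := t0) ht0 ht1 hJ1 k
    have h2 := hTX k
    simp only [hT] at h2
    omega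
  have hXs : ∀ k, X k < X (k + 1) := by
    intro k
    have h1 : T (k + 1) = J * X k := rfl
    have h2 := hTX (k + 1)
    have h3 := hX1 k
    nlinarith
  have hXm : StrictMono X := strictMono_nat_of_lt_succ hXs
  have hXtop : Tendsto (fun k => (X k : ℝ)) atTop atTop :=
    tendsto_natCast_atTop_atTop.comp hXm.tendsto_atTop
  have hMX : ∀ k, (Nat.primeCounting (X k) : ℝ) ≤ M ρ b β (X k) + Nat.primeCounting (T k) := by
    intro k
    obtain ⟨h1, h2, h3, h4⟩ := hN k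
    have h5 := M_ge (ρ := ρ) (b := b) (β := β) (k := T k) (n := X k) fun p hp hp1 hp2 =>
      block_prime hρ hb h3 h4 h1 h2 (by
        have := TT_ge (J := J) (t0 := t0) ht0 ht1 hJ1 k
        simp only [hT] at hp1
        omega) hp1.le hp2
    exact_mod_cast h5
  -- the ratio of the counting functions
  have hrat : ∀ ε : ℝ, 0 < ε → ∀ᶠ k : ℕ in atTop, (Nat.primeCounting (T k) : ℝ) ≤
      (t + ε) * Nat.primeCounting (X k) ∧ 0 < (Nat.primeCounting (X k) : ℝ) := by
    intro ε hε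
    have h1 := hXtop.eventually (pi_ratio (t := t + ε / 2) (ε := ε / 2) (by linarith) (by linarith))
    have h2 := hXtop.eventually_ge_atTop (2 * t / ε)
    filter_upwards [h1, h2] with k ⟨a1, a2⟩ a3
    rw [Nat.floor_natCast] at a1 a2
    refine ⟨?_, a2⟩
    have h3 : T k ≤ ⌊(t + ε / 2) * X k⌋₊ := by
      refine Nat.le_floor ?_
      have h4 := lt_XX (J := J) (t0 := t0) ht0 k
      rw [div_le_iff₀ hε] at a3
      simp only [hT, hX] at h4 a3 ⊢
      linarith
    have h4 : (Nat.primeCounting (T k) : ℝ) ≤ Nat.primeCounting ⌊(t + ε / 2) * X k⌋₊ := by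
      exact_mod_cast Nat.monotone_primeCounting h3
    have e : t + ε / 2 + ε / 2 = t + ε := by ring
    rw [e] at a1
    exact h4.trans a1
  constructor
  · have hJt : (0 : ℝ) < J / t := by
      have : (0 : ℝ) < J := by exact_mod_cast (by omega : 0 < J)
      positivity
    have h1 := hrat ((1 - t) / 4 * 3) (by linarith)
    have h2 := hXtop.eventually (pi_ratio (t := (J : ℝ) / t) (ε := 1) hJt one_pos)
    obtain ⟨K, hK⟩ := eventually_atTop.1 (h1.and h2)
    filter_upwards [eventually_ge_atTop (X K)] with n hn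
    have hex : ∃ k, n < X k := ⟨n + 1, lt_of_lt_of_le (Nat.lt_succ_self n) (hXm.id_le _)⟩
    obtain ⟨k, hk0, hk1, hk2⟩ : ∃ k, K ≤ k ∧ X k ≤ n ∧ n < X (k + 1) := by
      set L := Nat.find hex with hL
      have h1 := Nat.find_spec hex
      rw [← hL] at h1
      have h2 : K < L := by
        by_contra hcon
        have := hXm.monotone (not_lt.1 hcon)
        omega
      refine ⟨L - 1, by omega, ?_, by rwa [show L - 1 + 1 = L by omega]⟩
      have := Nat.find_min hex (m := L - 1) (by omega)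
      omega
    obtain ⟨⟨a1, a2⟩, a3, _⟩ := hK k hk0
    rw [Nat.floor_natCast] at a3
    have h3 : n ≤ ⌊(J : ℝ) / t * X k⌋₊ := by
      refine hk2.le.trans (Nat.le_floor ?_)
      have h4 := XX_le (J := J) (t0 := t0) ht0 (k + 1)
      rw [TT_succ] at h4
      push_cast at h4
      simp only [hX]
      calc _ ≤ _ := h4
        _ = _ := by ring
    have h4 : (Nat.primeCounting n : ℝ) ≤ (J / t + 1) * Nat.primeCounting (X k) := by
      refine le_trans ?_ a3
      exact_mod_cast Nat.monotone_primeCounting h3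
    have h5 : (M ρ b β (X k) : ℝ) ≤ M ρ b β n := by exact_mod_cast M_mono β hk1
    have h6 := hMX k
    have h7 : (0 : ℝ) < J / t + 1 := by linarith
    rw [div_mul_eq_mul_div, div_le_iff₀ (by positivity)]
    have h8 : (1 - t) / 4 * Nat.primeCounting (X k) ≤ M ρ b β n := by
      have e : t + (1 - t) / 4 * 3 = 1 - (1 - t) / 4 := by ring
      rw [e] at a1
      linarith
    calc (1 - t) * Nat.primeCounting n ≤ (1 - t) * ((J / t + 1) * Nat.primeCounting (X k)) :=
          mul_le_mul_of_nonneg_left h4 (by linarith)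
      _ = ((1 - t) / 4 * Nat.primeCounting (X k)) * (4 * (J / t + 1)) := by ring
      _ ≤ M ρ b β n * (4 * (J / t + 1)) := mul_le_mul_of_nonneg_right h8 (by positivity)
  · intro ε hε
    have h1 := hrat (ε / 2) (by linarith)
    rw [frequently_atTop]
    intro m
    obtain ⟨k, ⟨a1, a2⟩, hk⟩ := (h1.and (eventually_ge_atTop m)).exists
    refine ⟨X k, hk.trans (hXm.id_le k), ?_⟩
    have h6 := hMX k
    have h7 : 0 < ε / 2 * (Nat.primeCounting (X k) : ℝ) := by positivity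
    have e : (1 - t - ε) * (Nat.primeCounting (X k) : ℝ) = Nat.primeCounting (X k) -
      (t + ε / 2) * Nat.primeCounting (X k) - ε / 2 * Nat.primeCounting (X k) := by ring
    rw [e]
    linarith

/-- the start of the construction -/
lemma start' (hb : 2 ≤ b) (W0 B : ℕ) {t : ℝ} (ht0 : 0 < t) {u v : ℝ} (hu : 0 ≤ u)
    (huv : u < v) (hvB : v ≤ B) :
    ∃ T N : ℕ, W0 ≤ T ∧ N.Prime ∧ ⌊(T : ℝ) / t⌋₊ < N ∧ N + 1 ≤ B * b ^ T ∧
      u < (N : ℝ) / (b : ℝ) ^ T ∧ ((N : ℝ) + 1) / (b : ℝ) ^ T < v := by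
  set a := (2 * u + v) / 3 with ha
  set d := (u + 2 * v) / 3 with hd
  have hb2 : (2 : ℝ) ≤ b := by exact_mod_cast hb
  have ha0 : 0 < a := by rw [ha]; linarith
  have had : a < d := by rw [ha, hd]; linarith
  have hT : Tendsto (fun w : ℕ => (b : ℝ) ^ w) atTop atTop :=
    tendsto_pow_atTop_atTop_of_one_lt (by linarith)
  have h1 := hT.eventually (exists_prime ha0 had)
  have h2 : Tendsto (fun w : ℕ => ((w : ℝ) ^ 1 / (b : ℝ) ^ w)) atTop (𝓝 0) :=
    tendsto_pow_const_div_const_pow_of_one_lt 1 (by linarith)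
  have h3 := h2.eventually_lt_const (show (0 : ℝ) < a * t by positivity)
  have h4 := hT.eventually_gt_atTop (3 / (v - u))
  obtain ⟨w, ⟨hw1, hw2, hw3⟩, hw4⟩ := ((h1.and (h3.and h4)).and
    (eventually_ge_atTop W0)).exists
  obtain ⟨N, hN1, hN2, hN3⟩ := hw1
  have hvu : 0 < v - u := by linarith
  have hpos : (0 : ℝ) < (b : ℝ) ^ w := by positivity
  rw [div_lt_iff₀ hvu] at hw3
  rw [pow_one, div_lt_iff₀ hpos] at hw2
  have hNv : ((N : ℝ) + 1) / (b : ℝ) ^ w < v := by
    rw [div_lt_iff₀ hpos]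
    have : d = v - (v - u) / 3 := by rw [hd]; ring
    rw [this] at hN3
    nlinarith
  refine ⟨w, N, hw4, hN1, ?_, ?_, ?_, hNv⟩
  · rw [Nat.floor_lt (by positivity), div_lt_iff₀ ht0]
    have h5 := mul_lt_mul_of_pos_right hN2 ht0
    linarith
  · have h5 : ((N + 1 : ℕ) : ℝ) ≤ ((B * b ^ w : ℕ) : ℝ) := by
      push_cast
      rw [div_lt_iff₀ hpos] at hNv
      exact hNv.le.trans (mul_le_mul_of_nonneg_right hvB hpos.le)
    exact_mod_cast h5
  · rw [lt_div_iff₀ hpos]
    have : u < a := by rw [ha]; linarith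
    have h5 := mul_lt_mul_of_pos_right this hpos
    linarith

/-- conditions for large scales -/
lemma large (η δ : ℝ) (hη : 0 < η) (hδ : 0 < δ) (t : ℝ) (ht0 : 0 < t) (J : ℕ) (hJ : 2 ≤ J) :
    ∀ᶠ T : ℕ in atTop, (J : ℝ) / t * T ≤ η * 2 ^ ⌊δ * T⌋₊ ∧
      (∀ T' : ℕ, 2 * T ≤ T' → (T' : ℝ) / t < 2 ^ (T' - T)) := by
  have h1 : Tendsto (fun r : ℕ => ((r : ℝ) ^ 1 / 2 ^ r)) atTop (𝓝 0) :=
    tendsto_pow_const_div_const_pow_of_one_lt 1 (by norm_num)
  have hJ0 : (0 : ℝ) < J := by exact_mod_cast (by omega : 0 < J)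
  have hfl : Tendsto (fun T : ℕ => ⌊δ * T⌋₊) atTop atTop :=
    tendsto_nat_floor_atTop.comp (tendsto_natCast_atTop_atTop.const_mul_atTop hδ)
  have h2 := hfl.eventually (h1.eventually_lt_const (show (0 : ℝ) < η * δ * t / (2 * J) by positivity))
  have h3 := hfl.eventually_ge_atTop 1
  obtain ⟨R, hR⟩ := eventually_atTop.1 (h1.eventually_lt_const (show (0 : ℝ) < t / 2 by positivity))
  filter_upwards [h2, h3, eventually_ge_atTop R] with T a1 a2 a3
  constructor
  · rw [pow_one, div_lt_div_iff₀ (by positivity) (by positivity)] at a1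
    have h4 : δ * T < ⌊δ * T⌋₊ + 1 := Nat.lt_floor_add_one _
    have h5 : (1 : ℝ) ≤ ⌊δ * T⌋₊ := by exact_mod_cast a2
    have h6 : δ * T ≤ 2 * ⌊δ * T⌋₊ := by linarith
    have h7 : (J : ℝ) * (δ * T) ≤ η * δ * t * 2 ^ ⌊δ * T⌋₊ := by
      calc (J : ℝ) * (δ * T) ≤ J * (2 * ⌊δ * T⌋₊) := mul_le_mul_of_nonneg_left h6 hJ0.le
        _ = ⌊δ * T⌋₊ * (2 * J) := by ring
        _ ≤ η * δ * t * 2 ^ ⌊δ * T⌋₊ := a1.le
    rw [div_mul_eq_mul_div, div_le_iff₀ ht0]
    have h8 : δ * ((J : ℝ) * T) ≤ δ * (η * 2 ^ ⌊δ * T⌋₊ * t) := by linarith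
    exact le_of_mul_le_mul_left h8 hδ
  · intro T' hT'
    have h4 := hR (T' - T) (by omega)
    rw [pow_one, div_lt_div_iff₀ (by positivity) (by norm_num)] at h4
    rw [div_lt_iff₀ ht0]
    have h5 : (T' : ℝ) ≤ ((T' - T : ℕ) : ℝ) * 2 := by
      exact_mod_cast (by omega : T' ≤ (T' - T) * 2)
    linarith

set_option maxHeartbeats 1000000 in
/-- **Positive lower density and large upper density, with dimension.** -/
theorem dim_density (hρ : Rnd ρ) (hb : 2 ≤ b) {s t : ℝ} (hs : 0 < s) (hst : s < t) (ht1 : t < 1) :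
    ∃ c : ℝ, 0 < c ∧ ∀ u v : ℝ, 0 ≤ u → u < v →
      ENNReal.ofReal s ≤ dimH {β : ℝ | β ∈ Set.Ioo u v ∧
        (∀ᶠ n : ℕ in atTop, c * Nat.primeCounting n ≤ M ρ b β n) ∧
        (∀ ε : ℝ, 0 < ε → ∃ᶠ n : ℕ in atTop, (1 - t - ε) * Nat.primeCounting n < M ρ b β n)} := by
  obtain ⟨J0, η, hη, hmany⟩ := many Pool.Agent.H295R3.D.hoheisel hb
  have ht0 : 0 < t := by linarith
  have hb2 : (2 : ℝ) ≤ b := by exact_mod_cast hb
  have hb0 : (0 : ℝ) < b := by linarith
  set ℓ := Real.logb 2 b with hℓ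
  have hℓ1 : 1 ≤ ℓ := by
    rw [hℓ, Real.le_logb_iff_rpow_le (by norm_num) hb0, Real.rpow_one]
    exact hb2
  have hst' : s / t < 1 := by rwa [div_lt_one ht0]
  set δ := (1 - s / t) / 4 with hδ
  have hδ0 : 0 < δ := by rw [hδ]; linarith
  have hδ1 : δ < 1 := by
    have : 0 < s / t := by positivity
    rw [hδ]; linarith
  set J := max (max J0 4) ⌈1 / δ⌉₊ with hJ
  have hJJ0 : J0 ≤ J := (le_max_left _ _).trans (le_max_left _ _)
  have hJ4 : 4 ≤ J := (le_max_right _ _).trans (le_max_left _ _)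
  have hJδ : 1 ≤ δ * J := by
    have h1 : 1 / δ ≤ J := (Nat.le_ceil _).trans (by exact_mod_cast le_max_right _ _)
    rw [div_le_iff₀ hδ0] at h1
    linarith
  have hJr : (0 : ℝ) < J := by exact_mod_cast (by omega : 0 < J)
  refine ⟨(1 - t) / (4 * (J / t + 1)), by
    have : 0 < 1 - t := by linarith
    positivity, fun u v hu huv => ?_⟩
  set B := ⌈v⌉₊ with hB
  obtain ⟨W0, hW0⟩ := hmany B
  obtain ⟨W1, hW1⟩ := eventually_atTop.1 (large η δ hη hδ0 t ht0 J (by omega))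
  obtain ⟨t0, N0, g0, g1, g2, g3, g4, g5⟩ := start' hb (max (max W0 W1) (b + 4)) B ht0 hu huv
    (Nat.le_ceil v)
  have gW0 : W0 ≤ t0 := ((le_max_left _ _).trans (le_max_left _ _)).trans g0
  have gW1 : W1 ≤ t0 := ((le_max_right _ _).trans (le_max_left _ _)).trans g0
  have gb : b + 4 ≤ t0 := (le_max_right _ _).trans g0
  set T := TT J t0 t with hT
  set X := XX J t0 t with hX
  have hTX : ∀ k, T k ≤ X k := TT_le_XX ht0 ht1
  have hTge : ∀ k, t0 ≤ T k := TT_ge ht0 ht1 (by omega)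
  have hTs : ∀ k, T (k + 1) = J * X k := fun k => rfl
  have hXle : ∀ k, (X k : ℝ) ≤ T k / t := XX_le ht0
  set a : ℕ → ℕ := fun k => ⌊ℓ * ((T (k + 1) : ℝ) - X k)⌋₊ - ⌊δ * T k⌋₊ with ha
  have hXT : ∀ k, 4 * X k ≤ T (k + 1) := fun k => by
    rw [hTs]; exact Nat.mul_le_mul_right _ hJ4
  -- lower bound for the number of digits
  have hbig : ∀ k, ⌊δ * (T k : ℝ)⌋₊ + 1 ≤ ⌊ℓ * ((T (k + 1) : ℝ) - X k)⌋₊ := by
    intro k
    have h1 : (4 : ℝ) * X k ≤ T (k + 1) := by exact_mod_cast hXT k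
    have h2 : (T k : ℝ) ≤ X k := by exact_mod_cast hTX k
    have h3 : (1 : ℝ) ≤ T k := by exact_mod_cast (by have := hTge k; omega : 1 ≤ T k)
    have h4 : ⌊δ * (T k : ℝ)⌋₊ ≤ T k := by
      have : δ * (T k : ℝ) ≤ T k := by nlinarith
      calc ⌊δ * (T k : ℝ)⌋₊ ≤ ⌊((T k : ℕ) : ℝ)⌋₊ := Nat.floor_le_floor this
        _ = T k := Nat.floor_natCast _
    have h5 : T k + 1 ≤ ⌊ℓ * ((T (k + 1) : ℝ) - X k)⌋₊ := by
      refine Nat.le_floor ?_
      push_cast
      have h6 : (1 : ℝ) * ((T (k + 1) : ℝ) - X k) ≤ ℓ * ((T (k + 1) : ℝ) - X k) :=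
        mul_le_mul_of_nonneg_right hℓ1 (by linarith)
      linarith
    omega
  have hage : ∀ k, ℓ * ((T (k + 1) : ℝ) - X k) - 1 - δ * T k ≤ a k := by
    intro k
    have h1 : ⌊δ * (T k : ℝ)⌋₊ ≤ ⌊ℓ * ((T (k + 1) : ℝ) - X k)⌋₊ := by
      have := hbig k
      omega
    simp only [ha]
    rw [Nat.cast_sub h1]
    have h2 := Nat.lt_floor_add_one (ℓ * ((T (k + 1) : ℝ) - X k))
    have h3 : (⌊δ * (T k : ℝ)⌋₊ : ℝ) ≤ δ * T k := Nat.floor_le (by positivity)
    linarith
  set Good : ℕ → ℕ → Prop := fun k N => N.Prime ∧ X k < N ∧ N + 1 ≤ B * b ^ T k with hGood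
  have hstep : ∀ k N, Good k N → ∀ i < 2 ^ (a k),
      Good (k + 1) (child (N * b ^ (T (k + 1) - T k)) i) ∧
      child (N * b ^ (T (k + 1) - T k)) i + 1 ≤
        N * b ^ (T (k + 1) - T k) + b ^ (T (k + 1) - (X k + 1)) := by
    intro k N hN i hi
    obtain ⟨n1, n2, n3⟩ := hN
    obtain ⟨m1, m2⟩ := hW0 (T k) (X k) (T (k + 1)) N (gW0.trans (hTge k)) (hTX k)
      (by rw [hTs]; exact Nat.mul_le_mul_right _ hJJ0) n1.one_lt.le n3
    have hcard : 2 ^ (a k) ≤ ((Finset.Ioc (N * b ^ (T (k + 1) - T k))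
        (N * b ^ (T (k + 1) - T k) + (b ^ (T (k + 1) - (X k + 1)) - 1))).filter Nat.Prime).card := by
      have h1 : (2 : ℝ) ^ (a k) ≤ η * (b : ℝ) ^ (T (k + 1) - X k) / T (k + 1) := by
        have hT0 : (0 : ℝ) < T (k + 1) := by
          exact_mod_cast (by have := hTge (k + 1); omega : 0 < T (k + 1))
        rw [le_div_iff₀ hT0]
        have h2 := (hW1 (T k) (gW1.trans (hTge k))).1
        have h3 : (T (k + 1) : ℝ) ≤ J / t * T k := by
          rw [hTs]
          push_cast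
          calc (J : ℝ) * X k ≤ J * (T k / t) := mul_le_mul_of_nonneg_left (hXle k) hJr.le
            _ = J / t * T k := by ring
        have h4 : (2 : ℝ) ^ (a k) * 2 ^ ⌊δ * (T k : ℝ)⌋₊ ≤ (b : ℝ) ^ (T (k + 1) - X k) := by
          rw [← pow_add]
          have e : a k + ⌊δ * (T k : ℝ)⌋₊ = ⌊ℓ * ((T (k + 1) : ℝ) - X k)⌋₊ := by
            have := hbig k
            simp only [ha]
            omega
          rw [e]
          have hle : X k ≤ T (k + 1) := by have := hXT k; omega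
          have h5 : (b : ℝ) ^ (T (k + 1) - X k) = (2 : ℝ) ^ (ℓ * ((T (k + 1) : ℝ) - X k)) := by
            rw [Real.rpow_mul (by norm_num), hℓ, Real.rpow_logb (by norm_num) (by norm_num) hb0,
              ← Nat.cast_sub hle, Real.rpow_natCast]
          rw [h5, ← Real.rpow_natCast]
          refine Real.rpow_le_rpow_of_exponent_le (by norm_num) (Nat.floor_le ?_)
          have : (X k : ℝ) ≤ T (k + 1) := by exact_mod_cast hle
          have h6 : (0 : ℝ) ≤ (T (k + 1) : ℝ) - X k := by linarith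
          positivity
        calc (2 : ℝ) ^ (a k) * T (k + 1) ≤ 2 ^ (a k) * (η * 2 ^ ⌊δ * (T k : ℝ)⌋₊) :=
              mul_le_mul_of_nonneg_left (h3.trans h2) (by positivity)
          _ = η * (2 ^ (a k) * 2 ^ ⌊δ * (T k : ℝ)⌋₊) := by ring
          _ ≤ η * (b : ℝ) ^ (T (k + 1) - X k) := mul_le_mul_of_nonneg_left h4 hη.le
      have h2 := h1.trans m2
      exact_mod_cast h2
    have hc1 := child_gt (N * b ^ (T (k + 1) - T k)) i
    have hc2 := child_le (lt_of_lt_of_le hi hcard)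
    have h3 : 1 ≤ b ^ (T (k + 1) - (X k + 1)) := Nat.one_le_pow _ _ (by omega)
    have h4 : child (N * b ^ (T (k + 1) - T k)) i + 1 ≤
        N * b ^ (T (k + 1) - T k) + b ^ (T (k + 1) - (X k + 1)) := by omega
    refine ⟨⟨child_prime _ _, ?_, ?_⟩, h4⟩
    · have h5 := (hW1 (T k) (gW1.trans (hTge k))).2 (T (k + 1)) (by
        have h6 := hXT k
        have h7 := hTX k
        omega)
      have h6 : (X (k + 1) : ℝ) < ((2 ^ (T (k + 1) - T k) : ℕ) : ℝ) := by
        push_cast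
        exact (hXle (k + 1)).trans_lt h5
      have h7 : X (k + 1) < 2 ^ (T (k + 1) - T k) := by exact_mod_cast h6
      have h8 : 2 ^ (T (k + 1) - T k) ≤ N * b ^ (T (k + 1) - T k) :=
        (Nat.pow_le_pow_left hb _).trans (Nat.le_mul_of_pos_left _ n1.pos)
      omega
    · have hTT : T k ≤ T (k + 1) := by
        have h6 := hXT k
        have h7 := hTX k
        omega
      calc child (N * b ^ (T (k + 1) - T k)) i + 1
          ≤ N * b ^ (T (k + 1) - T k) + b ^ (T (k + 1) - (X k + 1)) := h4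
        _ ≤ N * b ^ (T (k + 1) - T k) + 1 * b ^ (T (k + 1) - T k) := by
            rw [one_mul]
            refine Nat.add_le_add_left (Nat.pow_le_pow_right (by omega) ?_) _
            have := hTX k
            omega
        _ = (N + 1) * b ^ (T (k + 1) - T k) := by ring
        _ ≤ B * b ^ T k * b ^ (T (k + 1) - T k) := Nat.mul_le_mul_right _ n3
        _ = B * b ^ T (k + 1) := by
            rw [mul_assoc, ← pow_add]
            congr 2
            omega
  obtain ⟨g, hg1, hg2⟩ := main hb T X a N0 Good ⟨g1, g2, g3⟩ hstep hTX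
    (fun k => by
      have h6 := hXT k
      have h7 := hTX k
      have h8 := hTge k
      omega) (fun k => by
      have := hbig k
      simp only [ha]
      omega) (c := 4 + (ℓ / t + 1) * t0) hs (by linarith) (fun k => by
      have h1 := hage k
      have h2 : (T (k + 1) : ℝ) * ℓ - a k ≤ ℓ * X k + 1 + δ * T k := by linarith
      have h3 := mul_le_mul_of_nonneg_left h2 hs.le
      have h4 := hXle k
      have hTk0 : (0 : ℝ) ≤ T k := Nat.cast_nonneg _
      have hs1 : s < 1 := by linarith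
      have h5 : ℓ * (X k : ℝ) ≤ ℓ / t * T k := by
        calc ℓ * (X k : ℝ) ≤ ℓ * (T k / t) := mul_le_mul_of_nonneg_left h4 (by linarith)
          _ = _ := by ring
      rcases k with _ | k
      · have e0 : (T 0 : ℝ) = t0 := rfl
        rw [e0] at h5 h2 h3 hTk0
        have h6 : (0 : ℝ) ≤ AA a 0 := Nat.cast_nonneg _
        have h7 : s * (ℓ * (X 0 : ℝ) + 1 + δ * t0) ≤ 1 * (ℓ * (X 0 : ℝ) + 1 + δ * t0) :=
          mul_le_mul_of_nonneg_right hs1.le (by positivity)
        have h8 : δ * (t0 : ℝ) ≤ 1 * t0 := mul_le_mul_of_nonneg_right hδ1.le hTk0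
        linarith
      · have h6 : (AA a (k + 1) : ℝ) ≥ a k := by
          rw [AA_succ]; push_cast
          have : (0 : ℝ) ≤ AA a k := Nat.cast_nonneg _
          linarith
        have h7 := hage k
        have h8 : (T (k + 1) : ℝ) = J * X k := by rw [hTs]; push_cast; ring
        have hX0 : (0 : ℝ) ≤ X k := Nat.cast_nonneg _
        have h9 : (X k : ℝ) ≤ δ * T (k + 1) := by
          rw [h8]
          calc (X k : ℝ) = 1 * X k := (one_mul _).symm
            _ ≤ (δ * J) * X k := mul_le_mul_of_nonneg_right hJδ hX0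
            _ = δ * (J * X k) := by ring
        have h10 : (T k : ℝ) ≤ T (k + 1) := by
          have h6' := hXT k
          have h7' := hTX k
          exact_mod_cast (by omega : T k ≤ T (k + 1))
        have h11 : δ * (T k : ℝ) ≤ δ * T (k + 1) := mul_le_mul_of_nonneg_left h10 hδ0.le
        have h12 : s / t = 1 - 4 * δ := by rw [hδ]; ring
        have h13 : s * (ℓ * (X (k + 1) : ℝ)) ≤ (1 - 4 * δ) * (ℓ * T (k + 1)) := by
          calc s * (ℓ * (X (k + 1) : ℝ)) ≤ s * (ℓ / t * T (k + 1)) :=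
                mul_le_mul_of_nonneg_left h5 hs.le
            _ = s / t * (ℓ * T (k + 1)) := by ring
            _ = _ := by rw [h12]
        have h14 : s * (δ * (T (k + 1) : ℝ)) ≤ 1 * (δ * T (k + 1)) :=
          mul_le_mul_of_nonneg_right hs1.le (by positivity)
        have h15 : δ * (T (k + 1) : ℝ) ≤ ℓ * (δ * T (k + 1)) := by
          have : (0 : ℝ) ≤ δ * T (k + 1) := by positivity
          nlinarith
        have h16 : ℓ * (X k : ℝ) ≤ ℓ * (δ * T (k + 1)) := mul_le_mul_of_nonneg_left h9 (by linarith)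
        have h17 : (0 : ℝ) ≤ (ℓ / t + 1) * t0 := by positivity
        have h18 : (0 : ℝ) ≤ ℓ * (δ * T (k + 1)) := by positivity
        have h19 : s * (ℓ * (X (k + 1) : ℝ) + 1 + δ * T (k + 1)) =
            s * (ℓ * (X (k + 1) : ℝ)) + s + s * (δ * (T (k + 1) : ℝ)) := by ring
        have h20 : (1 - 4 * δ) * (ℓ * (T (k + 1) : ℝ)) =
            ℓ * T (k + 1) - 4 * (ℓ * (δ * (T (k + 1) : ℝ))) := by ring
        have h21 : ℓ * ((T (k + 1) : ℝ) - X k) = ℓ * T (k + 1) - ℓ * X k := by ring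
        rw [h19] at h3
        rw [h20] at h13
        rw [h21] at h7
        linarith)
  refine dimH_ge (g := g) (C := (2 : ℝ) ^ (4 + (ℓ / t + 1) * (t0 : ℝ))) (fun y hy => ?_)
    (by positivity) hs hg2
  obtain ⟨N, hN0, hN⟩ := hg1 y hy
  have hd := density hρ hb ht0 ht1 (by omega) (show b ≤ t0 by omega) (β := g y) (N := N)
    (fun k => ⟨(hN k).1.1, (hN k).1.2.1, (hN k).2.1, (hN k).2.2⟩)
  refine ⟨⟨?_, ?_⟩, hd.1, hd.2⟩
  · have h2 := (hN 0).2.1
    rw [hN0] at h2
    exact g4.trans h2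
  · have h2 := (hN 0).2.2
    rw [hN0] at h2
    refine h2.trans (lt_of_le_of_lt ?_ g5)
    rw [add_div]
    have h3 : (1 : ℝ) / (b : ℝ) ^ (X 0 + 1) ≤ 1 / (b : ℝ) ^ t0 := by
      refine one_div_le_one_div_of_le (by positivity) (pow_le_pow_right₀ (by linarith) ?_)
      have h4 : T 0 ≤ X 0 := hTX 0
      have h5 : T 0 = t0 := rfl
      omega
    have h4 : T 0 = t0 := rfl
    rw [h4]
    linarith

end Pool.Agent.R500.MH
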