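import Mathlib
import Pool.Agent.R500.MH.Base

set_option autoImplicit false

/-!
# Amplitudes in base `b` with finitely many exponents
-/

namespace Pool.Agent.R500.MH

open Filter Topology Set
open Pool.Agent.R500.MG (roughPart roughPart_mul roughPart_smooth roughPart_self_prime
  not_prime_rough run)

/-- windows without primes, long enough for the square of a large prime -/
lemma windows : ∃ T0 : ℕ, 3 ≤ T0 ∧ ∀ t ≥ T0, ∃ t' x : ℕ, t ≤ x ∧ x + 1 < t' ∧ t' ≤ t ^ 2 ∧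
    (∀ p, x < p → p ≤ t' → ¬ p.Prime) ∧
    ∃ q : ℕ, q.Prime ∧ t' ^ 2 < q ∧ 2 * q ^ 2 + 2 ≤ 2 ^ (t' - (x + 1)) := by
  obtain ⟨T1, hT1⟩ := run
  refine ⟨max T1 35, by omega, fun t ht => ?_⟩
  have ht30 : 35 ≤ t := (le_max_right _ _).trans ht
  obtain ⟨x, hx1, hx2, hx3⟩ := hT1 t ((le_max_left _ _).trans ht)
  have ht3r : (35 : ℝ) ≤ t := by exact_mod_cast ht30
  set j := 8 * (Nat.log 2 t + 1) + 5 with hj
  have hlogt : 2 ≤ Real.log t := by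
    have h3 : Real.exp 2 ≤ t := by
      have h4 := Real.exp_one_lt_d9
      have h5 : Real.exp 2 = Real.exp 1 * Real.exp 1 := by rw [← Real.exp_add]; norm_num
      have h6 := Real.exp_pos 1
      nlinarith
    rw [← Real.log_exp 2]
    exact Real.log_le_log (Real.exp_pos _) h3
  have hjr : (j : ℝ) ≤ 24 * Real.log t := by
    have h3 : (Nat.log 2 t : ℝ) ≤ Real.log t / Real.log 2 := by
      have := Real.natLog_le_logb t 2
      rwa [Real.logb] at this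
    have h4 : Real.log t / Real.log 2 ≤ Real.log t / (2 / 3) := by
      refine div_le_div_of_nonneg_left (by linarith) (by norm_num) ?_
      have := Real.log_two_gt_d9
      linarith
    rw [hj]
    push_cast
    linarith
  have hjt : j ≤ 28 * t := by
    have h5 : Real.log t ≤ t := by
      have := Real.log_le_sub_one_of_pos (show (0 : ℝ) < t by linarith)
      linarith
    have : (j : ℝ) ≤ ((28 * t : ℕ) : ℝ) := by push_cast; linarith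
    exact_mod_cast this
  have hle : x + j ≤ t ^ 2 := by nlinarith
  refine ⟨x + j, x, hx1, by omega, hle, ?_, ?_⟩
  · intro p hp1 hp2 hp
    have h3 := hx3 (p - x) (by omega) (by
      have : ((p - x : ℕ) : ℝ) ≤ j := by exact_mod_cast (by omega : p - x ≤ j)
      linarith)
    rw [show x + (p - x) = p by omega] at h3
    exact h3 hp
  · obtain ⟨q, hq, hq1, hq2⟩ := Nat.exists_prime_lt_and_le_two_mul (t ^ 4) (by positivity)
    refine ⟨q, hq, ?_, ?_⟩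
    · calc (x + j) ^ 2 ≤ (t ^ 2) ^ 2 := Nat.pow_le_pow_left hle 2
        _ = t ^ 4 := by ring
        _ < q := hq1
    · have h3 : q ^ 2 ≤ 4 * t ^ 8 := by
        calc q ^ 2 ≤ (2 * t ^ 4) ^ 2 := Nat.pow_le_pow_left hq2 2
          _ = 4 * t ^ 8 := by ring
      have h4 : t ^ 8 ≤ 2 ^ (8 * (Nat.log 2 t + 1)) := by
        rw [mul_comm, pow_mul]
        exact Nat.pow_le_pow_left (Nat.lt_pow_succ_log_self (by norm_num) t).le 8
      have h5 : x + j - (x + 1) = 8 * (Nat.log 2 t + 1) + 4 := by omega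
      have h6 : 1 ≤ t ^ 8 := Nat.one_le_pow _ _ (by omega)
      rw [h5, pow_add]
      omega

variable {ρ : ℝ → ℕ} {b : ℕ}

/-- the choice of the digits in a window -/
lemma cell (t t' y N q : ℕ) (hq : 0 < q) (hD : 2 * q ^ 2 + 2 ≤ b ^ (t' - y)) (s : ℝ) :
    ∃ N' : ℕ, N * b ^ (t' - t) < N' ∧ N' + 1 ≤ N * b ^ (t' - t) + b ^ (t' - y) ∧ q ^ 2 ∣ N' ∧
      (s ≤ (N' : ℝ) / (b : ℝ) ^ t' ∨ ((N' : ℝ) + 1) / (b : ℝ) ^ t' < s) := by
  set B := N * b ^ (t' - t) with hB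
  have hq2 : 0 < q ^ 2 := by positivity
  have h1 : q ^ 2 * (B / q ^ 2) ≤ B := Nat.mul_div_le _ _
  have h2 : B < q ^ 2 * (B / q ^ 2 + 1) := Nat.lt_mul_div_succ _ hq2
  have e1 : q ^ 2 * (B / q ^ 2 + 1) = q ^ 2 * (B / q ^ 2) + q ^ 2 := by ring
  have e2 : q ^ 2 * (B / q ^ 2 + 2) = q ^ 2 * (B / q ^ 2) + 2 * q ^ 2 := by ring
  by_cases hs : s ≤ ((q ^ 2 * (B / q ^ 2 + 1) : ℕ) : ℝ) / (b : ℝ) ^ t' ∨
      (((q ^ 2 * (B / q ^ 2 + 1) : ℕ) : ℝ) + 1) / (b : ℝ) ^ t' < s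
  · exact ⟨_, h2, by omega, dvd_mul_right _ _, hs⟩
  · push Not at hs
    refine ⟨q ^ 2 * (B / q ^ 2 + 2), by omega, by omega, dvd_mul_right _ _, Or.inl ?_⟩
    refine hs.2.trans ?_
    refine div_le_div_of_nonneg_right ?_ (by positivity)
    have : q ^ 2 * (B / q ^ 2 + 1) + 1 ≤ q ^ 2 * (B / q ^ 2 + 2) := by omega
    exact_mod_cast this

/-- the states of the construction -/
def OK (T0 : ℕ) (z : ℕ × ℕ) : Prop :=
  T0 ≤ z.1 ∧ 0 < z.2 ∧ ∃ q : ℕ, q.Prime ∧ z.1 ^ 2 < q ∧ q ^ 2 ∣ z.2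

/-- one step of the construction -/
def Nx (b : ℕ) (s : ℝ) (z z' : ℕ × ℕ) : Prop :=
  ∃ x : ℕ, z.1 ≤ x ∧ x + 1 < z'.1 ∧ z'.1 ≤ z.1 ^ 2 ∧ (∀ p, x < p → p ≤ z'.1 → ¬ p.Prime) ∧
    z.2 * b ^ (z'.1 - z.1) < z'.2 ∧
    z'.2 + 1 ≤ z.2 * b ^ (z'.1 - z.1) + b ^ (z'.1 - (x + 1)) ∧
    (s ≤ (z'.2 : ℝ) / (b : ℝ) ^ z'.1 ∨ ((z'.2 : ℝ) + 1) / (b : ℝ) ^ z'.1 < s)

lemma next (hb : 2 ≤ b) {T0 : ℕ} (h : ∀ t ≥ T0, ∃ t' x : ℕ, t ≤ x ∧ x + 1 < t' ∧ t' ≤ t ^ 2 ∧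
    (∀ p, x < p → p ≤ t' → ¬ p.Prime) ∧
    ∃ q : ℕ, q.Prime ∧ t' ^ 2 < q ∧ 2 * q ^ 2 + 2 ≤ 2 ^ (t' - (x + 1))) (s : ℝ) (z : ℕ × ℕ)
    (hz : OK T0 z) : ∃ z', OK T0 z' ∧ Nx b s z z' := by
  obtain ⟨t', x, h1, h2, h3, h4, q, hq, hq1, hq2⟩ := h z.1 hz.1
  obtain ⟨N', g1, g2, g3, g4⟩ := cell (b := b) z.1 t' (x + 1) z.2 q hq.pos
    (hq2.trans (Nat.pow_le_pow_left hb _)) s
  exact ⟨(t', N'), ⟨by have := hz.1; simp only; omega, by simp only; omega, q, hq, hq1, g3⟩,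
    x, h1, h2, h3, h4, g1, g2, g4⟩

/-- the limit of the construction -/
theorem build (hρ : Rnd ρ) (hb : 2 ≤ b) {T0 : ℕ}
    (h : ∀ t ≥ T0, ∃ t' x : ℕ, t ≤ x ∧ x + 1 < t' ∧ t' ≤ t ^ 2 ∧
    (∀ p, x < p → p ≤ t' → ¬ p.Prime) ∧
    ∃ q : ℕ, q.Prime ∧ t' ^ 2 < q ∧ 2 * q ^ 2 + 2 ≤ 2 ^ (t' - (x + 1))) (s : ℕ → ℝ) (z0 : ℕ × ℕ)
    (hz0 : OK T0 z0) : ∃ β : ℝ, (z0.2 : ℝ) / (b : ℝ) ^ z0.1 < β ∧ β ≤ (z0.2 + 1) / (b : ℝ) ^ z0.1 ∧
      (∀ k, β ≠ s k) ∧ ∀ p : ℕ, p.Prime → z0.1 < p → ¬ (W ρ b β p).Prime := by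
  classical
  have hnx : ∀ (s : ℝ) (z : {z : ℕ × ℕ // OK T0 z}), ∃ z' : {z : ℕ × ℕ // OK T0 z},
      Nx b s z.1 z'.1 := by
    intro s z
    obtain ⟨z', h1, h2⟩ := next hb h s z.1 z.2
    exact ⟨⟨z', h1⟩, h2⟩
  choose nx hnx using hnx
  set Z : ℕ → {z : ℕ × ℕ // OK T0 z} := fun k => Nat.rec ⟨z0, hz0⟩ (fun k z => nx (s k) z) k with hZ
  have hZ0 : Z 0 = ⟨z0, hz0⟩ := rfl
  have hZs : ∀ k, Nx b (s k) (Z k).1 (Z (k + 1)).1 := fun k => hnx (s k) (Z k)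
  set t : ℕ → ℕ := fun k => (Z k).1.1 with ht
  set N : ℕ → ℕ := fun k => (Z k).1.2 with hN
  choose x hx1 hx2 hx3 hx4 hx5 hx6 hx7 using hZs
  obtain ⟨β, hβ⟩ := limit hb t x N hx1 (fun k => (hx2 k).le) hx5 hx6
  have hpos : ∀ k : ℕ, (0 : ℝ) < (b : ℝ) ^ k := fun k => by positivity
  have hb1 : (1 : ℝ) ≤ b := by exact_mod_cast (by omega : 1 ≤ b)
  have htm : StrictMono t := strictMono_nat_of_lt_succ fun k => by
    have h1 : t k ≤ x k := hx1 k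
    have h2 : x k + 1 < t (k + 1) := hx2 k
    omega
  have hhi : ∀ k, β ≤ (N k + 1) / (b : ℝ) ^ t k := fun k => by
    have h1 := (hβ k).2.le
    have h2 : (1 : ℝ) / (b : ℝ) ^ (x k + 1) ≤ 1 / (b : ℝ) ^ t k :=
      one_div_le_one_div_of_le (hpos _) (pow_le_pow_right₀ hb1 (by
        have h3 : t k ≤ x k := hx1 k
        omega))
    rw [add_div]
    linarith
  refine ⟨β, (hβ 0).1, hhi 0, fun k hk => ?_, fun p hp hp0 => ?_⟩
  · rcases hx7 k with h1 | h1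
    · have h2 := (hβ (k + 1)).1
      rw [hk] at h2
      exact absurd h1 (not_le.2 h2)
    · have h2 := hhi (k + 1)
      rw [hk] at h2
      exact absurd h1 (not_lt.2 h2)
  · have hex : ∃ k, p ≤ t k := ⟨p, htm.id_le p⟩
    obtain ⟨k, hk1, hk2⟩ : ∃ k, t k < p ∧ p ≤ t (k + 1) := by
      set K := Nat.find hex with hK
      have h1 := Nat.find_spec hex
      rw [← hK] at h1
      have h2 : K ≠ 0 := by
        intro h0
        rw [h0] at h1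
        have : t 0 = z0.1 := rfl
        omega
      refine ⟨K - 1, ?_, by rwa [show K - 1 + 1 = K by omega]⟩
      have := Nat.find_min hex (m := K - 1) (by omega)
      omega
    have hpx : p ≤ x k := by
      by_contra hcon
      exact hx4 k p (by omega) hk2 hp
    have h3 := block hρ hb (hβ k).1 (hβ k).2 hk1.le (delta_le hb hpx)
    unfold W
    rw [h3]
    obtain ⟨_, hN0, q, hq, hq1, hq2⟩ := (Z k).2
    have h4 : p < q := by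
      have h5 := hx3 k
      calc p ≤ t (k + 1) := hk2
        _ ≤ (t k) ^ 2 := h5
        _ < q := hq1
    refine not_prime_rough hq h4 (Dvd.dvd.mul_right hq2 _) ?_
    have : (0 : ℕ) < b ^ (p - t k) := by positivity
    have h6 : 0 < (Z k).1.2 := hN0
    positivity

/-- the start of the construction -/
lemma start (hb : 2 ≤ b) (T0 : ℕ) {u v : ℝ} (hu : 0 ≤ u) (huv : u < v) :
    ∃ z : ℕ × ℕ, OK T0 z ∧ u ≤ (z.2 : ℝ) / (b : ℝ) ^ z.1 ∧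
      ((z.2 : ℝ) + 1) / (b : ℝ) ^ z.1 < v := by
  have hb2 : (2 : ℝ) ≤ b := by exact_mod_cast hb
  have h1 : Tendsto (fun t : ℕ => ((t : ℝ) ^ 4 / (b : ℝ) ^ t)) atTop (𝓝 0) :=
    tendsto_pow_const_div_const_pow_of_one_lt 4 (by linarith)
  have h2 := h1.eventually_lt_const (show (0 : ℝ) < (v - u) / 10 by linarith)
  obtain ⟨t, ht1, ht2⟩ := (h2.and (eventually_ge_atTop (max T0 1))).exists
  have ht0 : 1 ≤ t := (le_max_right _ _).trans ht2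
  have h2t : (0 : ℝ) < (b : ℝ) ^ t := by positivity
  rw [div_lt_iff₀ h2t] at ht1
  obtain ⟨q, hq, hq1, hq2⟩ := Nat.exists_prime_lt_and_le_two_mul (t ^ 2) (by positivity)
  have hqr : (0 : ℝ) < (q : ℝ) ^ 2 := by
    have : (0 : ℝ) < q := by exact_mod_cast hq.pos
    positivity
  have hq4 : (q : ℝ) ^ 2 ≤ 4 * (t : ℝ) ^ 4 := by
    have h3 : q ^ 2 ≤ (2 * t ^ 2) ^ 2 := Nat.pow_le_pow_left hq2 2
    have h4 : ((q ^ 2 : ℕ) : ℝ) ≤ (((2 * t ^ 2) ^ 2 : ℕ) : ℝ) := by exact_mod_cast h3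
    push_cast at h4
    calc (q : ℝ) ^ 2 ≤ (2 * (t : ℝ) ^ 2) ^ 2 := h4
      _ = 4 * (t : ℝ) ^ 4 := by ring
  set m := ⌊u * (b : ℝ) ^ t / q ^ 2⌋₊ with hm
  have hm1 : (m : ℝ) * q ^ 2 ≤ u * (b : ℝ) ^ t := by
    have := Nat.floor_le (show 0 ≤ u * (b : ℝ) ^ t / (q : ℝ) ^ 2 by positivity)
    rwa [le_div_iff₀ hqr] at this
  have hm2 : u * (b : ℝ) ^ t < ((m : ℝ) + 1) * q ^ 2 := by
    have := Nat.lt_floor_add_one (u * (b : ℝ) ^ t / (q : ℝ) ^ 2)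
    rwa [div_lt_iff₀ hqr] at this
  refine ⟨(t, (m + 1) * q ^ 2), ⟨(le_max_left _ _).trans ht2, ?_, q, hq, hq1, dvd_mul_left _ _⟩,
    ?_, ?_⟩
  · have := hq.pos
    simp only
    positivity
  · simp only
    rw [le_div_iff₀ h2t]
    push_cast
    exact hm2.le
  · simp only
    rw [div_lt_iff₀ h2t]
    push_cast
    have h5 : (1 : ℝ) ≤ (t : ℝ) ^ 4 := by
      have : (1 : ℝ) ≤ t := by exact_mod_cast ht0
      exact one_le_pow₀ this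
    have h6 : ((m : ℝ) + 1) * q ^ 2 = m * q ^ 2 + q ^ 2 := by ring
    rw [h6]
    nlinarith

/-- **Every interval contains uncountably many amplitudes with finitely many exponents.** -/
theorem few (hρ : Rnd ρ) (hb : 2 ≤ b) {u v : ℝ} (hu : 0 ≤ u) (huv : u < v) :
    ¬ {β : ℝ | β ∈ Set.Ioo u v ∧ {p : ℕ | p.Prime ∧ (W ρ b β p).Prime}.Finite}.Countable := by
  intro hcount
  obtain ⟨T0, _, hT0⟩ := windows
  obtain ⟨z, hz, hz1, hz2⟩ := start hb T0 hu huv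
  set S := {β : ℝ | β ∈ Set.Ioo u v ∧ {p : ℕ | p.Prime ∧ (W ρ b β p).Prime}.Finite} with hS
  have key : ∀ s : ℕ → ℝ, ∃ β ∈ S, ∀ k, β ≠ s k := by
    intro s
    obtain ⟨β, h1, h2, h3, h4⟩ := build hρ hb hT0 s z hz
    refine ⟨β, ⟨⟨lt_of_le_of_lt hz1 h1, lt_of_le_of_lt h2 hz2⟩, ?_⟩, h3⟩
    refine (Set.finite_Iic z.1).subset fun p hp => ?_
    rw [Set.mem_Iic]
    by_contra hcon
    exact h4 p hp.1 (by omega) hp.2
  obtain ⟨β0, hβ0, _⟩ := key (fun _ => 0)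
  obtain ⟨s, hs⟩ := hcount.exists_eq_range ⟨β0, hβ0⟩
  obtain ⟨β, hβ, hne⟩ := key s
  rw [hs] at hβ
  obtain ⟨k, hk⟩ := hβ
  exact hne k hk.symm

end Pool.Agent.R500.MH
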