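import Mathlib
import Pool.Agent.R500.MH.Dense2

set_option autoImplicit false

/-!
# The dimension for all proportions; two rounding functions
-/

namespace Pool.Agent.R500.MH

open Filter Topology Set

lemma rnd_ceil : Rnd (fun y => ⌈y⌉₊ - 1) := by
  intro n y h1 h2
  have h3 : ⌈y⌉₊ = n + 1 := by
    rw [Nat.ceil_eq_iff (by omega)]
    constructor
    · simpa using h1
    · push_cast; linarith
  simp only [h3, Nat.add_sub_cancel]

lemma rnd_near : Rnd (fun y => ⌊y + 1 / 2⌋₊) := by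
  intro n y h1 h2
  have h0 : (0 : ℝ) ≤ n := Nat.cast_nonneg n
  simp only
  rw [Nat.floor_eq_iff (by linarith)]
  constructor <;> linarith

variable {ρ : ℝ → ℕ} {b : ℕ}

lemma dim_all (hρ : Rnd ρ) (hb : 2 ≤ b) {t : ℝ} (ht1 : t ≤ 1) {u v : ℝ} (hu : 0 ≤ u)
    (huv : u < v) :
    ENNReal.ofReal t ≤ dimH {β : ℝ | β ∈ Set.Ioo u v ∧
        (∃ c : ℝ, 0 < c ∧ ∀ᶠ n : ℕ in atTop, c * Nat.primeCounting n ≤ M ρ b β n) ∧
        (∀ ε : ℝ, 0 < ε → ∃ᶠ n : ℕ in atTop, (1 - t - ε) * Nat.primeCounting n < M ρ b β n)} := by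
  refine le_of_forall_lt fun d hd => ?_
  obtain ⟨e, he1, he2⟩ := exists_between hd
  have het : e ≠ ⊤ := ne_top_of_lt he2
  have ht0 : 0 < t := by
    by_contra hcon
    rw [ENNReal.ofReal_of_nonpos (not_lt.1 hcon)] at he2
    exact not_lt_zero he2
  have he3 : e.toReal < t := by
    have := (ENNReal.toReal_lt_toReal het ENNReal.ofReal_ne_top).2 he2
    rwa [ENNReal.toReal_ofReal ht0.le] at this
  have he0 : 0 < e.toReal := by
    refine ENNReal.toReal_pos ?_ het
    rintro rfl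
    exact not_lt_zero he1
  set s := e.toReal with hs
  rw [← ENNReal.ofReal_toReal het, ← hs] at he1
  refine lt_of_lt_of_le he1 ?_
  set t' := (s + t) / 2 with ht'
  have h1 : s < t' := by rw [ht']; linarith
  have h2 : t' < t := by rw [ht']; linarith
  obtain ⟨c, hc, h⟩ := dim_density hρ hb he0 h1 (show t' < 1 by linarith)
  refine (h u v hu huv).trans (dimH_mono ?_)
  rintro β ⟨g1, g2, g3⟩
  refine ⟨g1, ⟨c, hc, g2⟩, fun ε hε => (g3 ε hε).mono fun n hn => lt_of_le_of_lt ?_ hn⟩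
  exact mul_le_mul_of_nonneg_right (by linarith) (Nat.cast_nonneg _)

end Pool.Agent.R500.MH
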