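import Mathlib
import Pool.Agent.R500.MH.Generic
import Pool.Agent.R500.MH.Final
import Pool.Agent.H447R2.ML.Spec

set_option autoImplicit false

/-!
# The pairs `(a, 1)` and `(a, -1)`
-/

namespace Pool.Agent.R500.MH

open Pool.Agent.R500.MG (roughPart)
open Filter Topology Set

/-- The largest integer below `y` if `b = 1`, the integer nearest to `y` otherwise. -/
noncomputable def near (b : ℤ) (y : ℝ) : ℕ := if b = 1 then ⌈y⌉₊ - 1 else ⌊y + 1 / 2⌋₊

lemma rnd_pair (b : ℤ) : Rnd (near b) := by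
  unfold near
  split_ifs
  · exact rnd_ceil
  · exact rnd_near

lemma near_special {a : ℕ} (ha : 2 ≤ a) {b : ℤ} (hb : b = 1 ∨ b = -1) {p : ℕ} (hp : p.Prime)
    (hp2 : p ≠ 2) (hpd : ¬ (p : ℤ) ∣ (a : ℤ) - b) :
    (roughPart p (near b (1 / ((a : ℝ) - b) * (a : ℝ) ^ p)) : ℤ) * ((a : ℤ) - b) =
      (a : ℤ) ^ p - b ^ p := by
  have ha2 : (2 : ℝ) ≤ a := by exact_mod_cast ha
  have hab : IsCoprime (a : ℤ) b := by
    rcases hb with rfl | rfl
    · exact isCoprime_one_right
    · exact IsCoprime.neg_right isCoprime_one_right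
  have h1 : -(a : ℤ) < b := by rcases hb with rfl | rfl <;> omega
  have h2 : b < (a : ℤ) := by rcases hb with rfl | rfl <;> omega
  have hpos := Pool.Agent.H447R2.ML.geom_pos h1 h2 hp.ne_zero
  obtain ⟨N, hN⟩ := Int.eq_ofNat_of_zero_le hpos.le
  have hq := Pool.Agent.H447R2.ML.quot_real h2 p
  rw [hN] at hq
  have hr := Pool.Agent.H447R2.ML.rough_quot hab h1 h2 hp hpd (x := (N : ℝ)) (by
    rw [← Int.cast_natCast (R := ℝ)]
    exact_mod_cast hq)
  rw [Nat.floor_natCast] at hr
  have hgeom : (∑ i ∈ Finset.range p, (a : ℤ) ^ i * b ^ (p - 1 - i)) * ((a : ℤ) - b) =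
      (a : ℤ) ^ p - b ^ p := (Commute.all (a : ℤ) b).geom_sum₂_mul p
  have hodd : Odd p := hp.odd_of_ne_two hp2
  have hnear : near b (1 / ((a : ℝ) - b) * (a : ℝ) ^ p) = N := by
    rcases hb with rfl | rfl
    · have e : 1 / ((a : ℝ) - (1 : ℤ)) * (a : ℝ) ^ p = N + 1 / ((a : ℝ) - 1) := by
        have : ((((a : ℕ) : ℤ)) : ℝ) = (a : ℝ) := by push_cast; rfl
        rw [this] at hq
        push_cast at hq ⊢
        rw [one_pow] at hq
        linarith
      rw [e, near, if_pos rfl]
      have h3 : 0 < 1 / ((a : ℝ) - 1) := by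
        have : 0 < (a : ℝ) - 1 := by linarith
        positivity
      have h4 : 1 / ((a : ℝ) - 1) ≤ 1 := by
        rw [div_le_one (by linarith)]; linarith
      have h5 : ⌈(N : ℝ) + 1 / ((a : ℝ) - 1)⌉₊ = N + 1 := by
        rw [Nat.ceil_eq_iff (by omega)]
        constructor
        · simp only [Nat.add_sub_cancel]
          linarith
        · push_cast; linarith
      rw [h5, Nat.add_sub_cancel]
    · have e : 1 / ((a : ℝ) - (-1 : ℤ)) * (a : ℝ) ^ p = N - 1 / ((a : ℝ) + 1) := by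
        have : ((((a : ℕ) : ℤ)) : ℝ) = (a : ℝ) := by push_cast; rfl
        rw [this] at hq
        push_cast at hq ⊢
        rw [hodd.neg_one_pow, sub_neg_eq_add] at hq
        rw [sub_neg_eq_add]
        have h6 : (-1 : ℝ) / ((a : ℝ) + 1) = - (1 / ((a : ℝ) + 1)) := by ring
        rw [h6] at hq
        linarith
      rw [e, near, if_neg (by norm_num)]
      have h3 : 0 < 1 / ((a : ℝ) + 1) := by positivity
      have h4 : 1 / ((a : ℝ) + 1) ≤ 1 / 2 := by
        rw [div_le_div_iff₀ (by linarith) (by norm_num)]; linarith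
      rw [Nat.floor_eq_iff (by
        have : (0 : ℝ) ≤ N := Nat.cast_nonneg N
        linarith)]
      constructor <;> linarith
  rw [hnear, ← hgeom, ← hr]
  rfl

end Pool.Agent.R500.MH
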