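import Mathlib
import Pool.Agent.R500.MH.Base
import Pool.Agent.H447R2.ML.Spec

set_option autoImplicit false

/-!
# The special amplitudes: decimal repunits and generalized Wagstaff numbers
-/

namespace Pool.Agent.R500.MH

open Pool.Agent.R500.MG (roughPart)

/-- at the amplitude `1 / 9` the values are the decimal repunits -/
lemma repunit {p : ℕ} (hp : p.Prime) (h3 : p ≠ 3) :
    roughPart p (⌈(1 / 9 : ℝ) * 10 ^ p⌉₊ - 1) = ∑ i ∈ Finset.range p, 10 ^ i := by
  have hpd : ¬ (p : ℤ) ∣ (10 : ℤ) - 1 := by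
    intro h
    have h1 : p ∣ 9 := by
      have : (10 : ℤ) - 1 = ((9 : ℕ) : ℤ) := by norm_num
      rw [this] at h
      exact Int.natCast_dvd_natCast.1 h
    have h2 : p ∣ 3 := by
      have : p ∣ 3 ^ 2 := by simpa using h1
      exact hp.dvd_of_dvd_pow this
    exact h3 ((Nat.prime_dvd_prime_iff_eq hp Nat.prime_three).1 h2)
  set R := ∑ i ∈ Finset.range p, 10 ^ i with hR
  have hgeo : R * 9 + 1 = 10 ^ p := by
    have h1 := Nat.geomSum_eq (m := 10) (by norm_num) p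
    have h2 : 9 ∣ 10 ^ p - 1 := by
      have := Nat.sub_dvd_pow_sub_pow 10 1 p
      simpa using this
    have h3 : 1 ≤ 10 ^ p := Nat.one_le_pow _ _ (by norm_num)
    rw [hR, h1]
    omega
  have hgeo' : (R : ℝ) * 9 + 1 = 10 ^ p := by exact_mod_cast hgeo
  have h := Pool.Agent.H447R2.ML.rough_quot (a := 10) (b := 1) (by norm_num) (by norm_num)
    (by norm_num) hp hpd (x := (R : ℝ)) (by push_cast; rw [one_pow]; linarith)
  rw [Nat.floor_natCast] at h
  have h4 : roughPart p (⌈(1 / 9 : ℝ) * 10 ^ p⌉₊ - 1) = Pool.Agent.H305R2.roughPart p R := by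
    have h6 : ⌈(1 / 9 : ℝ) * 10 ^ p⌉₊ = R + 1 := by
      rw [Nat.ceil_eq_iff (Nat.succ_ne_zero _), ← hgeo']
      constructor
      · push_cast [Nat.add_sub_cancel]
        linarith
      · push_cast
        linarith
    rw [h6, Nat.add_sub_cancel]
    rfl
  rw [← h4] at h
  have h5 : ((roughPart p (⌈(1 / 9 : ℝ) * 10 ^ p⌉₊ - 1) : ℕ) : ℤ) = ((R : ℕ) : ℤ) := by
    rw [h, hR]
    push_cast
    refine Finset.sum_congr rfl fun i _ => ?_
    rw [one_pow, mul_one]
  exact_mod_cast h5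

/-- at the amplitude `1 / (b + 1)` the values are the generalized Wagstaff numbers -/
lemma wagstaff {b : ℕ} (hb : 2 ≤ b) {p : ℕ} (hp : p.Prime) (hp2 : p ≠ 2) (hpd : ¬ p ∣ b + 1) :
    roughPart p ⌊1 / ((b : ℝ) + 1) * (b : ℝ) ^ p + 1 / 2⌋₊ * (b + 1) = b ^ p + 1 := by
  have hodd : Odd p := hp.odd_of_ne_two hp2
  obtain ⟨M, hM⟩ : b + 1 ∣ b ^ p + 1 := by
    have := hodd.nat_add_dvd_pow_add_pow b 1
    rwa [one_pow] at this
  have hMr : ((M : ℝ)) * (b + 1) = (b : ℝ) ^ p + 1 := by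
    have : ((b : ℝ) ^ p + 1) = (((b ^ p + 1 : ℕ)) : ℝ) := by push_cast; ring
    rw [this, hM]
    push_cast; ring
  have hb0 : (0 : ℝ) < (b : ℝ) + 1 := by positivity
  have hb2 : (2 : ℝ) ≤ b := by exact_mod_cast hb
  have hfl : ⌊1 / ((b : ℝ) + 1) * (b : ℝ) ^ p + 1 / 2⌋₊ = M := by
    rw [Nat.floor_eq_iff (by positivity)]
    have e : 1 / ((b : ℝ) + 1) * (b : ℝ) ^ p = M - 1 / ((b : ℝ) + 1) := by
      field_simp
      linarith
    rw [e]
    have h1 : 1 / ((b : ℝ) + 1) ≤ 1 / 2 := by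
      rw [div_le_div_iff₀ hb0 (by norm_num)]
      linarith
    have h2 : 0 < 1 / ((b : ℝ) + 1) := by positivity
    constructor <;> linarith
  have hr := Pool.Agent.H447R2.ML.rough_quot (a := (b : ℤ)) (b := -1)
    (IsCoprime.neg_right isCoprime_one_right) (by omega) (by omega) hp
    (by
      intro h
      apply hpd
      have : ((p : ℕ) : ℤ) ∣ ((b + 1 : ℕ) : ℤ) := by push_cast; simpa using h
      exact_mod_cast this) (x := (M : ℝ)) (by
        push_cast
        rw [hodd.neg_one_pow]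
        have hne : (b : ℝ) - -1 ≠ 0 := by linarith
        field_simp
        linarith)
  rw [Nat.floor_natCast] at hr
  have hgeom : (∑ i ∈ Finset.range p, (b : ℤ) ^ i * (-1) ^ (p - 1 - i)) * ((b : ℤ) - -1) =
      (b : ℤ) ^ p - (-1) ^ p := (Commute.all (b : ℤ) (-1)).geom_sum₂_mul p
  rw [← hr, hodd.neg_one_pow] at hgeom
  rw [hfl]
  have h4 : ((roughPart p M : ℕ) : ℤ) * ((b : ℤ) + 1) = (b : ℤ) ^ p + 1 := by
    have h5 : (roughPart p M : ℤ) = (Pool.Agent.H305R2.roughPart p M : ℤ) := rfl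
    rw [h5]
    linarith
  exact_mod_cast h4

end Pool.Agent.R500.MH
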